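import Pool.Agent.WLIter.RelFinal

/-! The stabilisation theorem for sequences of spaces of matrices. -/

open Matrix
open scoped ComplexOrder

namespace Pool.Agent.WLIter

variable {m : Type*} [Fintype m] [DecidableEq m]

theorem herm_eq_zero (h : Matrix m m ℂ) (hh : hᴴ = h) (j : ℕ) (h0 : h ^ (2 ^ j) = 0) : h = 0 := by
  induction j with
  | zero => simpa using h0
  | succ j ih =>
    apply ih
    have h1 : (h ^ (2 ^ j))ᴴ = h ^ (2 ^ j) := by rw [Matrix.conjTranspose_pow, hh]
    rw [← Matrix.conjTranspose_mul_self_eq_zero, h1, ← pow_add, ← two_mul, ← pow_succ']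
    exact h0

theorem semisimple_of_star (A : Subalgebra ℂ (Matrix m m ℂ)) (hA : ∀ x ∈ A, xᴴ ∈ A) :
    IsSemisimpleRing A := by
  have : IsArtinianRing A := IsArtinianRing.of_finite ℂ A
  rw [IsArtinianRing.isSemisimpleRing_iff_jacobson, eq_bot_iff]
  intro x hx
  obtain ⟨n, hn⟩ : IsNilpotent (Ring.jacobson A) := IsSemiprimaryRing.isNilpotent
  have hy : (⟨(x : Matrix m m ℂ)ᴴ, hA _ x.2⟩ : A) * x ∈ Ring.jacobson A :=
    Ideal.mul_mem_left _ _ hx
  have h1 := Ideal.pow_mem_pow hy n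
  rw [hn] at h1
  have h2 : ((⟨(x : Matrix m m ℂ)ᴴ, hA _ x.2⟩ : A) * x) ^ n = 0 := h1
  have h3 : ((x : Matrix m m ℂ)ᴴ * x) ^ n = 0 := by
    have := congrArg (Subtype.val) h2
    simpa using this
  have h4 : ((x : Matrix m m ℂ)ᴴ * x) ^ (2 ^ n) = 0 :=
    pow_eq_zero_of_le (Nat.lt_two_pow_self).le h3
  have h5 := herm_eq_zero _ (by rw [Matrix.conjTranspose_mul, Matrix.conjTranspose_conjTranspose])
    n h4
  rw [Matrix.conjTranspose_mul_self_eq_zero] at h5
  rw [Ideal.mem_bot]
  exact Subtype.ext h5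

theorem sum_blocks_le (B : Subalgebra ℂ (Matrix m m ℂ)) (d : BlockData B) :
    ∑ j, d.a j ≤ Fintype.card m := by
  have h := sum_rank d B.val
  rw [← h]
  apply Finset.sum_le_sum
  intro j _
  have h1 : (B.val (d.pr j)).rank ≠ 0 := by
    intro h0
    have := eq_zero_of_rank _ h0
    apply d.unit_ne_zero j 0 0
    exact Subtype.ext this
  exact Nat.le_mul_of_pos_right _ (Nat.pos_of_ne_zero h1)

theorem pow_bound (D : ℕ) : 2 * (D ^ 2 + D) + 1 ≤ 2 ^ (D + 2) := by
  induction D with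
  | zero => norm_num
  | succ D ih =>
    rcases Nat.lt_or_ge D 2 with h | h
    · interval_cases D <;> norm_num
    · have : 2 ^ (D + 1 + 2) = 2 * 2 ^ (D + 2) := by ring
      rw [this]
      nlinarith

section core

variable (W : ℕ → Submodule ℂ (Matrix m m ℂ)) (h1 : 1 ∈ W 0)
  (hstar : ∀ r, ∀ x ∈ W r, xᴴ ∈ W r) (hmul : ∀ r, W r * W r ≤ W (r + 1))
  (hstab : ∀ r, W (r + 1) ≤ W r → W (r + 2) ≤ W (r + 1))

include h1 hmul in
theorem one_mem_W (r : ℕ) : (1 : Matrix m m ℂ) ∈ W r := by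
  induction r with
  | zero => exact h1
  | succ r ih =>
    have := hmul r (Submodule.mul_mem_mul ih ih)
    rwa [one_mul] at this

include h1 hmul in
theorem W_le_succ (r : ℕ) : W r ≤ W (r + 1) := by
  intro x hx
  have := hmul r (Submodule.mul_mem_mul (one_mem_W W h1 hmul r) hx)
  rwa [one_mul] at this

include h1 hmul in
theorem W_mono {r s : ℕ} (h : r ≤ s) : W r ≤ W s :=
  monotone_nat_of_le_succ (W_le_succ W h1 hmul) h

include hmul in
theorem W_pow (r j : ℕ) : W r ^ (2 ^ j) ≤ W (r + j) := by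
  induction j with
  | zero => simp
  | succ j ih =>
    rw [pow_succ, mul_two, pow_add]
    exact (mul_le_mul' ih ih).trans (hmul (r + j))

include h1 hmul in
theorem W_pow_le (r j L : ℕ) (hL : L ≤ 2 ^ j) : W r ^ L ≤ W (r + j) := by
  refine le_trans ?_ (W_pow W hmul r j)
  have h2 : ∀ k, W r ^ k ≤ W r ^ (k + 1) := by
    intro k x hx
    have := Submodule.mul_mem_mul hx (one_mem_W W h1 hmul r)
    rw [mul_one] at this
    rw [pow_succ]
    exact this
  exact monotone_nat_of_le_succ h2 hL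

omit [Fintype m] [DecidableEq m] in
include hstab in
theorem stable_mono {r s : ℕ} (h : r ≤ s) (hr : W (r + 1) ≤ W r) : W (s + 1) ≤ W s := by
  induction s, h using Nat.le_induction with
  | base => exact hr
  | succ s _ ih => exact hstab s ih

/-- one step: from a star-closed algebra `A` below `W r` to the algebra generated by `W r`. -/
theorem step (A : Subalgebra ℂ (Matrix m m ℂ)) (dA : BlockData A) (V : Submodule ℂ (Matrix m m ℂ))
    (hAV : Subalgebra.toSubmodule A ≤ V) (hne : ¬ V ≤ Subalgebra.toSubmodule A)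
    (B : Subalgebra ℂ (Matrix m m ℂ)) (hB : B = Algebra.adjoin ℂ (V : Set (Matrix m m ℂ)))
    (dB : BlockData B) :
    ∃ x y : ℕ, 2 * ∑ j, dB.a j + dA.s = 2 * ∑ i, dA.a i + dB.s + (x + y) ∧ 1 ≤ x + y ∧
      Subalgebra.toSubmodule B ≤ V ^ (2 * (x + y ^ 2 + y) + 1) := by
  have hVB : V ≤ Subalgebra.toSubmodule B := by
    intro x hx
    rw [hB]
    exact Algebra.subset_adjoin hx
  have hAB : A ≤ B := fun x hx => hVB (hAV hx)
  let ι : A →ₐ[ℂ] B := Subalgebra.inclusion hAB
  have hι : Function.Injective ι := Subalgebra.inclusion_injective hAB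
  let V' : Submodule ℂ B := V.comap B.val.toLinearMap
  have hVmap : V'.map B.val.toLinearMap = V := by
    rw [Submodule.map_comap_eq]
    rw [inf_eq_right]
    intro x hx
    exact ⟨⟨x, hVB hx⟩, rfl⟩
  have hgen : Algebra.adjoin ℂ (V' : Set B) = ⊤ := by
    apply Subalgebra.map_injective (f := B.val) Subtype.val_injective
    rw [AlgHom.map_adjoin]
    have : (B.val : B → Matrix m m ℂ) '' (V' : Set B) = V := by
      have := congrArg (fun S : Submodule ℂ (Matrix m m ℂ) => (S : Set (Matrix m m ℂ))) hVmap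
      simpa using this
    rw [this, ← hB]
    rw [Algebra.map_top, Subalgebra.range_val]
  have hrg : rg ι ≤ V' := by
    rintro _ ⟨a, rfl⟩
    exact hAV a.2
  have hnot : ¬ V' ≤ rg ι := by
    intro h
    apply hne
    intro z hz
    obtain ⟨a, ha⟩ := h (show (⟨z, hVB hz⟩ : B) ∈ V' from hz)
    have : (a : Matrix m m ℂ) = z := congrArg Subtype.val ha
    rw [← this]
    exact a.2
  obtain ⟨x, y, e1, e2, e3⟩ := rel_length ι dA dB hι V' hrg hnot hgen
  refine ⟨x, y, e1, e2, ?_⟩
  have h3 : (V' ^ (2 * (x + y ^ 2 + y) + 1)).map B.val.toLinearMap =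
      V ^ (2 * (x + y ^ 2 + y) + 1) := by
    rw [Submodule.map_pow, hVmap]
  rw [← h3, e3]
  intro z hz
  exact ⟨⟨z, hz⟩, trivial, rfl⟩

include h1 hstar hmul hstab in
theorem core_aux (μ : ℕ) : ∀ (A : Subalgebra ℂ (Matrix m m ℂ)) (dA : BlockData A) (r : ℕ),
    Subalgebra.toSubmodule A ≤ W r →
    2 * ∑ i, dA.a i + μ = 2 * Fintype.card m + dA.s → W (r + 4 * μ + 1) ≤ W (r + 4 * μ) := by
  induction μ using Nat.strong_induction_on with
  | _ μ ih =>
  intro A dA r hA hμ
  by_cases hcase : W (r + 1) ≤ Subalgebra.toSubmodule A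
  · exact stable_mono W hstab (by omega) (hcase.trans hA)
  set B := Algebra.adjoin ℂ (W (r + 1) : Set (Matrix m m ℂ)) with hB
  have hBstar : ∀ x ∈ B, xᴴ ∈ B := by
    intro x hx
    induction hx using Algebra.adjoin_induction with
    | mem x hx => exact Algebra.subset_adjoin (hstar _ x hx)
    | algebraMap c =>
      rw [Algebra.algebraMap_eq_smul_one, Matrix.conjTranspose_smul, Matrix.conjTranspose_one]
      exact B.smul_mem B.one_mem _
    | add x y _ _ hx hy => rw [Matrix.conjTranspose_add]; exact B.add_mem hx hy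
    | mul x y _ _ hx hy => rw [Matrix.conjTranspose_mul]; exact B.mul_mem hy hx
  have := semisimple_of_star B hBstar
  obtain ⟨dB⟩ := exists_blockData B
  obtain ⟨x, y, e1, e2, e3⟩ := step A dA (W (r + 1)) (hA.trans (W_le_succ W h1 hmul r)) hcase B hB dB
  have hsum := sum_blocks_le B dB
  have hle : x + y ^ 2 + y ≤ (x + y) ^ 2 + (x + y) := by nlinarith
  have hL : 2 * (x + y ^ 2 + y) + 1 ≤ 2 ^ (x + y + 2) := by
    have := pow_bound (x + y)
    omega
  have h5 : Subalgebra.toSubmodule B ≤ W (r + 1 + (x + y + 2)) :=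
    e3.trans (W_pow_le W h1 hmul (r + 1) _ _ hL)
  have h6 := ih (μ - (x + y)) (by omega) B dB (r + 1 + (x + y + 2)) h5 (by omega)
  refine stable_mono W hstab ?_ h6
  omega

include h1 hstar hmul hstab in
/-- **Core theorem.** -/
theorem core (r : ℕ) (hr : 8 * Fintype.card m ≤ r) : W r = W (8 * Fintype.card m) := by
  have hbotstar : ∀ x ∈ (⊥ : Subalgebra ℂ (Matrix m m ℂ)), xᴴ ∈ (⊥ : Subalgebra ℂ (Matrix m m ℂ)) := by
    intro x hx
    rw [Algebra.mem_bot] at hx ⊢
    obtain ⟨c, rfl⟩ := hx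
    refine ⟨star c, ?_⟩
    rw [Algebra.algebraMap_eq_smul_one, Algebra.algebraMap_eq_smul_one,
      Matrix.conjTranspose_smul, Matrix.conjTranspose_one]
  have := semisimple_of_star ⊥ hbotstar
  obtain ⟨d⟩ := exists_blockData (⊥ : Subalgebra ℂ (Matrix m m ℂ))
  have hs : d.s ≤ ∑ i, d.a i := by
    calc d.s = ∑ i : Fin d.s, 1 := by simp
      _ ≤ _ := Finset.sum_le_sum (fun i _ => Nat.one_le_iff_ne_zero.2 (NeZero.ne _))
  have hsum := sum_blocks_le _ d
  have h0 : Subalgebra.toSubmodule (⊥ : Subalgebra ℂ (Matrix m m ℂ)) ≤ W 0 := by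
    intro x hx
    obtain ⟨c, rfl⟩ := Algebra.mem_bot.1 hx
    rw [Algebra.algebraMap_eq_smul_one]
    exact Submodule.smul_mem _ _ h1
  have h2 := core_aux W h1 hstar hmul hstab (2 * Fintype.card m + d.s - 2 * ∑ i, d.a i) ⊥ d 0 h0
    (by omega)
  have h3 : W (8 * Fintype.card m + 1) ≤ W (8 * Fintype.card m) :=
    stable_mono W hstab (by omega) h2
  apply le_antisymm
  · induction r, hr using Nat.le_induction with
    | base => exact le_rfl
    | succ r hr ih => exact (stable_mono W hstab hr h3).trans ih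
  · exact W_mono W h1 hmul hr

end core

end Pool.Agent.WLIter
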