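import Pool.Agent.WLIter.Defs
import Pool.Agent.WLIter.Core

/-! From the core theorem to the Weisfeiler–Leman algorithm. -/

open Matrix

namespace Pool.Agent.WLIter

universe u v w

/-- equal multisets of values come from a bijection -/
theorem exists_equiv_of_map_eq {β : Type*} {V : Type*} {V' : Type*} [Fintype V] [Fintype V']
    (f : V → β) (g : V' → β)
    (h : (Finset.univ : Finset V).val.map f = (Finset.univ : Finset V').val.map g) :
    ∃ e : V ≃ V', ∀ v, f v = g (e v) := by
  classical
  have hc : ∀ b, Nonempty ({v // f v = b} ≃ {v' // g v' = b}) := by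
    intro b
    rw [← Fintype.card_eq]
    have h1 := congrArg (Multiset.count b) h
    rw [Multiset.count_map, Multiset.count_map] at h1
    rw [Fintype.card_subtype, Fintype.card_subtype]
    have e1 : ∀ x, (b = f x) = (f x = b) := fun x => propext eq_comm
    have e2 : ∀ x, (b = g x) = (g x = b) := fun x => propext eq_comm
    simp only [e1, e2] at h1
    exact h1
  let E := fun b => Classical.choice (hc b)
  let e : V ≃ V' := (Equiv.sigmaFiberEquiv f).symm.trans
    ((Equiv.sigmaCongrRight E).trans (Equiv.sigmaFiberEquiv g))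
  refine ⟨e, fun v => ?_⟩
  have : g (e v) = f v := (E (f v) ⟨v, rfl⟩).2
  exact this.symm

theorem map_eq_of_equiv {β : Type*} {V : Type*} {V' : Type*} [Fintype V] [Fintype V']
    (f : V → β) (g : V' → β) (e : V ≃ V') (h : ∀ v, f v = g (e v)) :
    (Finset.univ : Finset V).val.map f = (Finset.univ : Finset V').val.map g := by
  have h1 : f = g ∘ e := funext h
  rw [h1, ← Multiset.map_map]
  congr 1
  have := Finset.map_univ_equiv e
  rw [← this]
  simp

section basic

variable {k : ℕ} {α : Type u} {V : Type v} [Fintype V] [DecidableEq V] {V' : Type w} [Fintype V']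
  [DecidableEq V'] (c : (Fin k → V) → α) (c' : (Fin k → V') → α)

theorem wl_succ_iff (r : ℕ) (x : Fin k → V) (y : Fin k → V') :
    wl c (r + 1) x = wl c' (r + 1) y ↔ wl c r x = wl c' r y ∧
      ∃ e : V ≃ V', ∀ w i, wl c r (Function.update x i w) = wl c' r (Function.update y i (e w)) := by
  constructor
  · intro h
    have h1 := Prod.ext_iff.1 h
    refine ⟨h1.1, ?_⟩
    obtain ⟨e, he⟩ := exists_equiv_of_map_eq _ _ h1.2
    exact ⟨e, fun w i => congrFun (he w) i⟩
  · rintro ⟨h1, e, he⟩
    refine Prod.ext h1 ?_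
    exact map_eq_of_equiv _ _ e (fun w => funext (he w))

theorem wl_of_succ (r : ℕ) (x : Fin k → V) (y : Fin k → V')
    (h : wl c (r + 1) x = wl c' (r + 1) y) : wl c r x = wl c' r y :=
  ((wl_succ_iff c c' r x y).1 h).1

theorem wl_of_le {r s : ℕ} (hrs : r ≤ s) (x : Fin k → V) (y : Fin k → V')
    (h : wl c s x = wl c' s y) : wl c r x = wl c' r y := by
  induction s, hrs using Nat.le_induction with
  | base => exact h
  | succ s _ ih => exact ih (wl_of_succ c c' s x y h)

/-- permuting the coordinates -/
theorem wl_perm (τ : Equiv.Perm (Fin k)) (r : ℕ) :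
    ∀ (x y : Fin k → V), wl c r x = wl c r y → wl c r (x ∘ τ) = wl c r (y ∘ τ) := by
  induction r with
  | zero =>
    intro x y h
    have h1 := Prod.ext_iff.1 h
    refine Prod.ext ?_ ?_
    · funext i j
      exact congrFun (congrFun h1.1 (τ i)) (τ j)
    · funext σ
      exact congrFun h1.2 (τ ∘ σ)
  | succ r ih =>
    intro x y h
    rw [wl_succ_iff] at h ⊢
    obtain ⟨h1, e, he⟩ := h
    refine ⟨ih x y h1, e, fun w i => ?_⟩
    have h2 : ∀ (z : Fin k → V) (w : V), Function.update (z ∘ τ) i w =
        (Function.update z (τ i) w) ∘ τ := by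
      intro z w
      rw [← Function.update_comp_eq_of_injective z τ.injective i w]
    rw [h2, h2]
    exact ih _ _ (he w (τ i))

/-- partition stability propagates -/
theorem stable_step (r : ℕ) (h : ∀ x y, wl c r x = wl c r y → wl c (r + 1) x = wl c (r + 1) y)
    (x y : Fin k → V) (hxy : wl c (r + 1) x = wl c (r + 1) y) :
    wl c (r + 2) x = wl c (r + 2) y := by
  rw [wl_succ_iff]
  refine ⟨hxy, ?_⟩
  obtain ⟨_, e, he⟩ := (wl_succ_iff c c r x y).1 hxy
  exact ⟨e, fun w i => h _ _ (he w i)⟩

end basic

section matrices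

variable {k : ℕ} {α : Type u} {V : Type v} [Fintype V] [DecidableEq V] (c : (Fin (k + 2) → V) → α)

/-- all but the first two coordinates -/
def tl (x : Fin (k + 2) → V) : Fin k → V := fun i => x i.succ.succ

/-- the entry of a matrix corresponding to a tuple -/
def ent (M : Matrix (V × (Fin k → V)) (V × (Fin k → V)) ℂ) (x : Fin (k + 2) → V) : ℂ :=
  M (x 0, tl x) (x 1, tl x)

/-- the space of the matrices which are constant on the colour classes of round `r`. -/
def W (r : ℕ) : Submodule ℂ (Matrix (V × (Fin k → V)) (V × (Fin k → V)) ℂ) where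
  carrier := {M | (∀ p q, p.2 ≠ q.2 → M p q = 0) ∧
    ∀ x y, wl c r x = wl c r y → ent M x = ent M y}
  add_mem' := by
    rintro M N ⟨h1, h2⟩ ⟨h3, h4⟩
    refine ⟨fun p q h => by rw [Matrix.add_apply, h1 p q h, h3 p q h, add_zero], fun x y h => ?_⟩
    have := h2 x y h
    have := h4 x y h
    simp only [ent, Matrix.add_apply] at *
    simp [*]
  zero_mem' := ⟨fun _ _ _ => rfl, fun _ _ _ => rfl⟩
  smul_mem' := by
    rintro a M ⟨h1, h2⟩
    refine ⟨fun p q h => by rw [Matrix.smul_apply, h1 p q h, smul_zero], fun x y h => ?_⟩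
    have := h2 x y h
    simp only [ent, Matrix.smul_apply] at *
    simp [*]

theorem mem_W (r : ℕ) (M : Matrix (V × (Fin k → V)) (V × (Fin k → V)) ℂ) :
    M ∈ W c r ↔ (∀ p q, p.2 ≠ q.2 → M p q = 0) ∧
      ∀ x y, wl c r x = wl c r y → ent M x = ent M y := Iff.rfl

theorem one_mem : (1 : Matrix (V × (Fin k → V)) (V × (Fin k → V)) ℂ) ∈ W c 0 := by
  rw [mem_W]
  constructor
  · intro p q h
    exact Matrix.one_apply_ne (fun h' => h (congrArg Prod.snd h'))
  · intro x y h
    have h1 : (x 0 = x 1) = (y 0 = y 1) := congrFun (congrFun (Prod.ext_iff.1 h).1 0) 1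
    simp only [ent, Matrix.one_apply, Prod.mk.injEq, and_true]
    simp [h1]

theorem star_mem (r : ℕ) : ∀ M ∈ W c r, Mᴴ ∈ W c r := by
  rintro M ⟨h1, h2⟩
  rw [mem_W]
  refine ⟨fun p q h => ?_, fun x y h => ?_⟩
  · rw [Matrix.conjTranspose_apply, h1 q p (Ne.symm h), star_zero]
  · have h3 : ∀ x : Fin (k + 2) → V, ent Mᴴ x = star (ent M (x ∘ (Equiv.swap 0 1))) := by
      intro x
      unfold ent
      rw [Matrix.conjTranspose_apply]
      have e1 : tl (x ∘ (Equiv.swap (0 : Fin (k + 2)) 1)) = tl x := by
        funext i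
        unfold tl
        rw [Function.comp_apply, Equiv.swap_apply_of_ne_of_ne]
        · exact Fin.succ_ne_zero _
        · intro h
          exact Fin.succ_ne_zero i (Fin.succ_injective _ h)
      rw [e1]
      simp
    rw [h3, h3, h2 _ _ (wl_perm c _ r x y h)]

omit [DecidableEq V] in
theorem ent_mul [DecidableEq V] (M N : Matrix (V × (Fin k → V)) (V × (Fin k → V)) ℂ)
    (hM : ∀ p q, p.2 ≠ q.2 → M p q = 0) (x : Fin (k + 2) → V) :
    ent (M * N) x = ∑ w, ent M (Function.update x 1 w) * ent N (Function.update x 0 w) := by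
  unfold ent
  rw [Matrix.mul_apply, Fintype.sum_prod_type]
  apply Finset.sum_congr rfl
  intro w _
  rw [Finset.sum_eq_single (tl x)]
  · have e1 : ∀ w, tl (Function.update x 1 w) = tl x := by
      intro w; funext i; unfold tl
      rw [Function.update_of_ne]
      intro h
      exact Fin.succ_ne_zero i (Fin.succ_injective _ h)
    have e2 : ∀ w, tl (Function.update x 0 w) = tl x := by
      intro w; funext i; unfold tl
      rw [Function.update_of_ne]
      exact Fin.succ_ne_zero _
    rw [e1, e2]
    simp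
  · intro z _ hz
    rw [hM _ _ (fun h => hz h.symm), zero_mul]
  · simp

theorem mul_le (r : ℕ) : W c r * W c r ≤ W c (r + 1) := by
  rw [Submodule.mul_le]
  rintro M ⟨h1, h2⟩ N ⟨h3, h4⟩
  rw [mem_W]
  refine ⟨fun p q h => ?_, fun x y h => ?_⟩
  · rw [Matrix.mul_apply]
    apply Finset.sum_eq_zero
    intro s _
    by_cases hs : p.2 = s.2
    · rw [h3 s q (fun h' => h (hs.trans h')), mul_zero]
    · rw [h1 p s hs, zero_mul]
  · obtain ⟨_, e, he⟩ := (wl_succ_iff c c r x y).1 h
    rw [ent_mul M N h1, ent_mul M N h1,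
      ← Equiv.sum_comp e (fun w => ent M (Function.update y 1 w) * ent N (Function.update y 0 w))]
    apply Finset.sum_congr rfl
    intro w _
    rw [h2 _ _ (he w 1), h4 _ _ (he w 0)]

/-- if the spaces coincide, so do the partitions -/
theorem partition_of_le (r s : ℕ) (h : W c s ≤ W c r) (x y : Fin (k + 2) → V)
    (hxy : wl c r x = wl c r y) : wl c s x = wl c s y := by
  classical
  -- the indicator matrix of the colour class of `y`
  let M : Matrix (V × (Fin k → V)) (V × (Fin k → V)) ℂ := Matrix.of fun p q =>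
    if p.2 = q.2 ∧ wl c s (Fin.cons p.1 (Fin.cons q.1 p.2)) = wl c s y then 1 else 0
  have hent : ∀ z : Fin (k + 2) → V, ent M z = if wl c s z = wl c s y then 1 else 0 := by
    intro z
    have : (Fin.cons (z 0) (Fin.cons (z 1) (tl z)) : Fin (k + 2) → V) = z := by
      funext i
      refine Fin.cases ?_ (fun i => ?_) i
      · rfl
      · refine Fin.cases ?_ (fun i => ?_) i
        · rfl
        · rfl
    unfold ent
    simp only [M, Matrix.of_apply, true_and]
    rw [this]
  have hM : M ∈ W c s := by
    rw [mem_W]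
    refine ⟨fun p q h => ?_, fun z z' h => ?_⟩
    · simp [M, h]
    · rw [hent, hent, h]
  have h1 := (h hM).2 x y hxy
  rw [hent, hent, if_pos rfl] at h1
  by_contra hcon
  rw [if_neg hcon] at h1
  exact zero_ne_one h1

theorem le_of_partition (r s : ℕ) (h : ∀ x y, wl c r x = wl c r y → wl c s x = wl c s y) :
    W c s ≤ W c r := by
  rintro M ⟨h1, h2⟩
  exact ⟨h1, fun x y hxy => h2 x y (h x y hxy)⟩

theorem stab (r : ℕ) (h : W c (r + 1) ≤ W c r) : W c (r + 2) ≤ W c (r + 1) :=
  le_of_partition c _ _ (stable_step c r (partition_of_le c r (r + 1) h))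

theorem stabilises (r : ℕ) (hr : 8 * Fintype.card V ^ (k + 1) ≤ r) (x y : Fin (k + 2) → V)
    (hxy : wl c (8 * Fintype.card V ^ (k + 1)) x = wl c (8 * Fintype.card V ^ (k + 1)) y) :
    wl c r x = wl c r y := by
  have hcard : Fintype.card (V × (Fin k → V)) = Fintype.card V ^ (k + 1) := by
    rw [Fintype.card_prod, Fintype.card_fun, Fintype.card_fin]
    ring
  have h := core (W c) (one_mem c) (star_mem c) (mul_le c) (stab c) r (by rw [hcard]; exact hr)
  rw [hcard] at h
  exact partition_of_le c _ _ h.le x y hxy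

end matrices

section two

variable {k : ℕ} {α : Type u} {V : Type v} [Fintype V] [DecidableEq V] {V' : Type w} [Fintype V']
  [DecidableEq V'] (c : (Fin k → V) → α) (c' : (Fin k → V') → α)

/-- forget the last round -/
def prev {k : ℕ} {α : Type u} {r : ℕ} (p : Colour k α (r + 1)) : Colour k α r := Prod.fst p

theorem multiset_step (r : ℕ) (h : wlMultiset c (r + 1) = wlMultiset c' (r + 1)) :
    wlMultiset c r = wlMultiset c' r := by
  have := congrArg (Multiset.map prev) h
  unfold wlMultiset at this ⊢
  rw [Multiset.map_map, Multiset.map_map] at this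
  exact this

theorem multiset_of_le {r s : ℕ} (hrs : r ≤ s) (h : wlMultiset c s = wlMultiset c' s) :
    wlMultiset c r = wlMultiset c' r := by
  induction s, hrs using Nat.le_induction with
  | base => exact h
  | succ s _ ih => exact ih (multiset_step c c' s h)

theorem two_structures (R : ℕ) (hst : ∀ x y, wl c R x = wl c R y → wl c (R + 1) x = wl c (R + 1) y)
    (h : wlMultiset c (R + 1) = wlMultiset c' (R + 1)) (s : ℕ) :
    wlMultiset c s = wlMultiset c' s := by
  rcases Nat.le_total s (R + 1) with hs | hs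
  · exact multiset_of_le c c' hs h
  obtain ⟨E, hE⟩ := exists_equiv_of_map_eq _ _ h
  -- claim
  have key : ∀ s, R + 1 ≤ s → ∀ (x : Fin k → V) (y : Fin k → V'), wl c R x = wl c' R y →
      wl c s x = wl c' s y := by
    intro s hs
    induction s, hs using Nat.le_induction with
    | base =>
      intro x y hxy
      obtain ⟨x', rfl⟩ := E.surjective y
      have h1 := hE x'
      have h2 := wl_of_succ c c' R _ _ h1
      rw [← h1]
      exact hst _ _ (hxy.trans h2.symm)
    | succ s hs ih =>
      intro x y hxy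
      rw [wl_succ_iff]
      refine ⟨ih x y hxy, ?_⟩
      have h1 := wl_of_le c c' hs _ _ (ih x y hxy)
      obtain ⟨_, e, he⟩ := (wl_succ_iff c c' R x y).1 h1
      exact ⟨e, fun w i => ih _ _ (he w i)⟩
  exact map_eq_of_equiv _ _ E (fun x => key s hs x (E x) (wl_of_succ c c' R _ _ (hE x)))

end two

end Pool.Agent.WLIter
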