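import Pool.Agent.WLIter.LowE

/-!
# Lower bound, part H: the structures with a single `k`-ary relation
-/

namespace Pool.Agent.WLIter.Low

open Finset

variable {I : Type} {k : ℕ}

/-- the `j`-th position of a form -/
def q (k : ℕ) (f : Bool × ℕ) (j : ℕ) : ℕ := if f.1 = true ∧ j = k - 1 then f.2 + k else f.2 + j

section rel

variable [DecidableEq I] (s : LongSeq I k) (ρ : I → ℕ)

/-- order of the blocks: `(a, b, b, …, b)` -/
def RA (x : Fin k → I × K) : Prop :=
  ∃ a b : I × K, (∀ j : Fin k, x j = if j.val = 0 then a else b) ∧ ρ a.1 ≤ ρ b.1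

/-- difference `(1, 0)`: `(a, a, b, …, b)` -/
def RB (x : Fin k → I × K) : Prop :=
  ∃ a b : I × K, (∀ j : Fin k, x j = if j.val ≤ 1 then a else b) ∧ b = (a.1, a.2 + (1, 0))

/-- difference `(0, 1)`: `(a, b, a, …, a)` -/
def RC (x : Fin k → I × K) : Prop :=
  ∃ a b : I × K, (∀ j : Fin k, x j = if j.val = 1 then b else a) ∧ b = (a.1, a.2 + (0, 1))

/-- the parity forms -/
def RD (t : Bool × ℕ → ZMod 2) (x : Fin k → I × K) : Prop :=
  ∃ f ∈ known k s.len 0, (∀ j : Fin k, (x j).1 = s.e (q k f j)) ∧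
    ∑ j : Fin k, dot (wt k f (q k f j)) (x j).2 = t f

/-- the relation -/
def P (t : Bool × ℕ → ZMod 2) (x : Fin k → I × K) : Prop :=
  RA ρ x ∨ RB x ∨ RC x ∨ RD s t x

theorem q_mem (hk : 3 ≤ k) (f : Bool × ℕ) (hf : Valid s f) (j : ℕ) (hj : j < k) :
    q k f j ∈ pos s f := by
  obtain ⟨b, t⟩ := f
  cases b
  · simp only [Valid, Bool.false_eq_true, if_false] at hf
    unfold q
    rw [if_neg (by simp), mem_pos_F]
    simp only
    omega
  · simp only [Valid, if_true] at hf
    unfold q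
    rw [mem_pos_G s hk]
    simp only [true_and]
    split_ifs with h <;> omega

theorem q_inj (f : Bool × ℕ) (i j : ℕ) (hi : i < k) (hj : j < k) (h : q k f i = q k f j) :
    i = j := by
  unfold q at h
  split_ifs at h with h1 h2 h2 <;> omega

theorem q_surj (hk : 3 ≤ k) (f : Bool × ℕ) (i : ℕ) (hi : i ∈ pos s f) :
    ∃ j < k, q k f j = i := by
  obtain ⟨b, t⟩ := f
  cases b
  · rw [mem_pos_F] at hi
    refine ⟨i - t, by omega, ?_⟩
    unfold q
    rw [if_neg (by simp)]
    simp only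
    omega
  · rw [mem_pos_G s hk] at hi
    by_cases h : i = t + k
    · refine ⟨k - 1, by omega, ?_⟩
      unfold q
      rw [if_pos ⟨rfl, rfl⟩]
      exact h.symm
    · refine ⟨i - t, by omega, ?_⟩
      unfold q
      rw [if_neg (by simp only [true_and]; omega)]
      simp only
      omega

/-- the value of a form as a sum over the entries -/
theorem ev_eq (hk : 3 ≤ k) (f : Bool × ℕ) (hf : Valid s f) (Δ : I → K) :
    ev s f Δ = ∑ j : Fin k, dot (wt k f (q k f j)) (Δ (s.e (q k f j))) := by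
  unfold ev
  have h1 : ∑ j ∈ range s.len, dot (wt k f j) (Δ (s.e j)) =
      ∑ j ∈ pos s f, dot (wt k f j) (Δ (s.e j)) := by
    symm
    apply Finset.sum_subset (filter_subset _ _)
    intro j hj hj'
    have : wt k f j = 0 := by
      by_contra h
      exact hj' (mem_filter.2 ⟨hj, h⟩)
    rw [this, dot_zero_left]
  rw [h1]
  symm
  refine Finset.sum_bij (fun (j : Fin k) _ => q k f j) ?_ ?_ ?_ ?_
  · intro j _
    exact q_mem s hk f hf j j.2
  · intro i _ j _ h
    exact Fin.ext (q_inj f i j i.2 j.2 h)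
  · intro i hi
    obtain ⟨j, hj, hji⟩ := q_surj s hk f i hi
    exact ⟨⟨j, hj⟩, mem_univ _, hji⟩
  · intro j _
    rfl

/-- matched blocks are distinct -/
theorem match_inj (hk : 3 ≤ k) (f : Bool × ℕ) (hf : Valid s f) (x : Fin k → I × K)
    (hx : ∀ j : Fin k, (x j).1 = s.e (q k f j)) (i j : Fin k) (h : x i = x j) : i = j := by
  have h1 : s.e (q k f i) = s.e (q k f j) := by rw [← hx i, ← hx j, h]
  exact Fin.ext (q_inj f i j i.2 j.2
    (inj_pos s hk f (q_mem s hk f hf i i.2) (q_mem s hk f hf j j.2) h1))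

/-- the form is determined by the blocks -/
theorem match_unique (hk : 3 ≤ k) (f g : Bool × ℕ) (hf : Valid s f) (hg : Valid s g)
    (x : Fin k → I × K) (hx : ∀ j : Fin k, (x j).1 = s.e (q k f j))
    (hx' : ∀ j : Fin k, (x j).1 = s.e (q k g j)) : f = g := by
  have hsp : ∀ f, Valid s f → (∀ j : Fin k, (x j).1 = s.e (q k f j)) →
      (pos s f).image s.e = Sys.blocks x := by
    intro f hf hx
    ext a
    unfold Sys.blocks
    rw [mem_image, mem_image]
    constructor
    · rintro ⟨i, hi, rfl⟩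
      obtain ⟨j, hj, rfl⟩ := q_surj s hk f i hi
      exact ⟨⟨j, hj⟩, mem_univ _, hx ⟨j, hj⟩⟩
    · rintro ⟨j, _, rfl⟩
      exact ⟨q k f j, q_mem s hk f hf j j.2, (hx j).symm⟩
  have hF := hsp f hf hx
  have hG := hsp g hg hx'
  have hC : (Sys.blocks x).card ≤ k + 1 := (Sys.card_blocks_le x).trans (by omega)
  have key : ∀ f g, Valid s f → Valid s g → (pos s f).image s.e = Sys.blocks x →
      (pos s g).image s.e = Sys.blocks x → pos s f ⊆ pos s g := by
    intro f g hf hg hF hG i hi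
    have hd : s.e i ∈ (pos s f).image s.e := mem_image_of_mem _ hi
    obtain ⟨_, j, hj, hj', hji⟩ := common s hk f g hf hg _ hC (hF ▸ subset_rfl)
      (hG ▸ subset_rfl) (s.e i) hd (by rw [hG, ← hF]; exact hd)
    have : j = i := inj_pos s hk f hj hi hji
    rwa [this] at hj'
  have hpos : pos s f = pos s g := subset_antisymm (key f g hf hg hF hG) (key g f hg hf hG hF)
  obtain ⟨b, t⟩ := f
  obtain ⟨b', t'⟩ := g
  have h1 := q_mem s hk _ hf 0 (by omega)
  have h2 := q_mem s hk _ hf (k - 2) (by omega)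
  have h3 := q_mem s hk _ hf (k - 1) (by omega)
  have h4 := q_mem s hk _ hg 0 (by omega)
  have h5 := q_mem s hk _ hg (k - 2) (by omega)
  have h6 := q_mem s hk _ hg (k - 1) (by omega)
  rw [hpos] at h1 h2 h3
  rw [← hpos] at h4 h5 h6
  cases b <;> cases b'
  · rw [mem_pos_F] at h1 h2 h3 h4 h5 h6
    simp only [q, Bool.false_eq_true, false_and, if_false] at h1 h2 h3 h4 h5 h6
    have : t = t' := by omega
    rw [this]
  · rw [mem_pos_G s hk] at h1 h2 h3
    rw [mem_pos_F] at h4 h5 h6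
    simp only [q, Bool.false_eq_true, false_and, if_false, true_and, if_true] at h1 h2 h3 h4 h5 h6
    rw [if_neg (by omega)] at h4
    exfalso; omega
  · rw [mem_pos_F] at h1 h2 h3
    rw [mem_pos_G s hk] at h4 h5 h6
    simp only [q, Bool.false_eq_true, false_and, if_false, true_and, if_true] at h1 h2 h3 h4 h5 h6
    rw [if_neg (by omega)] at h1
    exfalso; omega
  · rw [mem_pos_G s hk] at h1 h2 h3 h4 h5 h6
    simp only [q, true_and, if_true] at h1 h2 h3 h4 h5 h6
    rw [if_neg (by omega)] at h1 h4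
    have : t = t' := by omega
    rw [this]

/-! ### extraction -/

theorem P_A (hk : 3 ≤ k) (t : Bool × ℕ → ZMod 2) (x : Fin k → I × K) (a b : I × K)
    (hx : ∀ j : Fin k, x j = if j.val = 0 then a else b) : P s ρ t x ↔ ρ a.1 ≤ ρ b.1 := by
  have x0 : x ⟨0, by omega⟩ = a := by rw [hx]; simp
  have x1 : x ⟨1, by omega⟩ = b := by rw [hx]; simp
  have x2 : x ⟨2, by omega⟩ = b := by rw [hx]; simp
  constructor
  · rintro (⟨a', b', h, h'⟩ | ⟨a', b', h, h'⟩ | ⟨a', b', h, h'⟩ | ⟨f, hf, h, _⟩)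
    · have e0 := h ⟨0, by omega⟩
      have e1 := h ⟨1, by omega⟩
      rw [x0, if_pos rfl] at e0
      rw [x1, if_neg (by simp)] at e1
      rw [e0, e1]
      exact h'
    · have e1 := h ⟨0, by omega⟩
      have e2 := h ⟨1, by omega⟩
      have e3 := h ⟨2, by omega⟩
      rw [x0, if_pos (by simp)] at e1
      rw [x1, if_pos (by simp)] at e2
      rw [x2, if_neg (by simp)] at e3
      rw [e1, ← e2]
    · have e1 := h ⟨0, by omega⟩
      have e2 := h ⟨1, by omega⟩
      have e3 := h ⟨2, by omega⟩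
      rw [x0, if_neg (by simp)] at e1
      rw [x2, if_neg (by simp)] at e3
      rw [e1, ← e3]
    · have := match_inj s hk f (valid_of_known s 0 f hf) x h ⟨1, by omega⟩ ⟨2, by omega⟩
        (x1.trans x2.symm)
      simp at this
  · intro h
    exact Or.inl ⟨a, b, hx, h⟩

theorem P_B (hk : 3 ≤ k) (t : Bool × ℕ → ZMod 2) (x : Fin k → I × K) (a b : I × K) (hab : a ≠ b)
    (hx : ∀ j : Fin k, x j = if j.val ≤ 1 then a else b) :
    P s ρ t x ↔ b = (a.1, a.2 + (1, 0)) := by
  have x0 : x ⟨0, by omega⟩ = a := by rw [hx]; simp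
  have x1 : x ⟨1, by omega⟩ = a := by rw [hx]; simp
  have x2 : x ⟨2, by omega⟩ = b := by rw [hx]; simp
  constructor
  · rintro (⟨a', b', h, h'⟩ | ⟨a', b', h, h'⟩ | ⟨a', b', h, h'⟩ | ⟨f, hf, h, _⟩)
    · exfalso
      have e1 := h ⟨1, by omega⟩
      have e2 := h ⟨2, by omega⟩
      rw [x1, if_neg (by simp)] at e1
      rw [x2, if_neg (by simp)] at e2
      exact hab (e1.trans e2.symm)
    · have e1 := h ⟨0, by omega⟩
      have e3 := h ⟨2, by omega⟩
      rw [x0, if_pos (by simp)] at e1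
      rw [x2, if_neg (by simp)] at e3
      rw [e1, e3]
      exact h'
    · exfalso
      have e1 := h ⟨0, by omega⟩
      have e3 := h ⟨2, by omega⟩
      rw [x0, if_neg (by simp)] at e1
      rw [x2, if_neg (by simp)] at e3
      exact hab (e1.trans e3.symm)
    · have := match_inj s hk f (valid_of_known s 0 f hf) x h ⟨0, by omega⟩ ⟨1, by omega⟩
        (x0.trans x1.symm)
      simp at this
  · intro h
    exact Or.inr (Or.inl ⟨a, b, hx, h⟩)

theorem P_C (hk : 3 ≤ k) (t : Bool × ℕ → ZMod 2) (x : Fin k → I × K) (a b : I × K) (hab : a ≠ b)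
    (hx : ∀ j : Fin k, x j = if j.val = 1 then b else a) :
    P s ρ t x ↔ b = (a.1, a.2 + (0, 1)) := by
  have x0 : x ⟨0, by omega⟩ = a := by rw [hx]; simp
  have x1 : x ⟨1, by omega⟩ = b := by rw [hx]; simp
  have x2 : x ⟨2, by omega⟩ = a := by rw [hx]; simp
  constructor
  · rintro (⟨a', b', h, h'⟩ | ⟨a', b', h, h'⟩ | ⟨a', b', h, h'⟩ | ⟨f, hf, h, _⟩)
    · exfalso
      have e1 := h ⟨1, by omega⟩
      have e2 := h ⟨2, by omega⟩
      rw [x1, if_neg (by simp)] at e1
      rw [x2, if_neg (by simp)] at e2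
      exact hab (e2.trans e1.symm)
    · exfalso
      have e1 := h ⟨0, by omega⟩
      have e3 := h ⟨1, by omega⟩
      rw [x0, if_pos (by simp)] at e1
      rw [x1, if_pos (by simp)] at e3
      exact hab (e1.trans e3.symm)
    · have e1 := h ⟨0, by omega⟩
      have e2 := h ⟨1, by omega⟩
      rw [x0, if_neg (by simp)] at e1
      rw [x1, if_pos (by simp)] at e2
      rw [e1, e2]
      exact h'
    · have := match_inj s hk f (valid_of_known s 0 f hf) x h ⟨0, by omega⟩ ⟨2, by omega⟩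
        (x0.trans x2.symm)
      simp at this
  · intro h
    exact Or.inr (Or.inr (Or.inl ⟨a, b, hx, h⟩))

theorem P_D (hk : 3 ≤ k) (t : Bool × ℕ → ZMod 2) (x : Fin k → I × K) (f : Bool × ℕ)
    (hf : f ∈ known k s.len 0) (hx : ∀ j : Fin k, (x j).1 = s.e (q k f j)) :
    P s ρ t x ↔ ∑ j : Fin k, dot (wt k f (q k f j)) (x j).2 = t f := by
  have hinj := match_inj s hk f (valid_of_known s 0 f hf) x hx
  constructor
  · rintro (⟨a', b', h, h'⟩ | ⟨a', b', h, h'⟩ | ⟨a', b', h, h'⟩ | ⟨g, hg, h, h'⟩)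
    · exfalso
      have e1 := h ⟨1, by omega⟩
      have e2 := h ⟨2, by omega⟩
      rw [if_neg (by simp)] at e1 e2
      have := hinj _ _ (e1.trans e2.symm)
      simp at this
    · exfalso
      have e1 := h ⟨0, by omega⟩
      have e2 := h ⟨1, by omega⟩
      rw [if_pos (by simp)] at e1 e2
      have := hinj _ _ (e1.trans e2.symm)
      simp at this
    · exfalso
      have e1 := h ⟨0, by omega⟩
      have e2 := h ⟨2, by omega⟩
      rw [if_neg (by simp)] at e1 e2
      have := hinj _ _ (e1.trans e2.symm)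
      simp at this
    · rw [match_unique s hk f g (valid_of_known s 0 f hf) (valid_of_known s 0 g hg) x hx h]
      exact h'
  · intro h
    exact Or.inr (Or.inr (Or.inr ⟨f, hf, hx, h⟩))

/-! ### compatibility -/

omit [DecidableEq I] in
theorem RA_T (Δ : I → K) (x y : Fin k → I × K) (h : ∀ j, y j = T Δ (x j)) (hA : RA ρ x) :
    RA ρ y := by
  obtain ⟨a, b, h1, h2⟩ := hA
  refine ⟨T Δ a, T Δ b, fun j => ?_, h2⟩
  rw [h, h1]
  split_ifs <;> rfl

omit [DecidableEq I] in
theorem RB_T (Δ : I → K) (x y : Fin k → I × K) (h : ∀ j, y j = T Δ (x j)) (hB : RB x) :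
    RB y := by
  obtain ⟨a, b, h1, h2⟩ := hB
  refine ⟨T Δ a, T Δ b, fun j => ?_, ?_⟩
  · rw [h, h1]
    split_ifs <;> rfl
  · rw [h2]
    unfold T
    simp only [Prod.mk.injEq, true_and]
    abel

omit [DecidableEq I] in
theorem RC_T (Δ : I → K) (x y : Fin k → I × K) (h : ∀ j, y j = T Δ (x j)) (hC : RC x) :
    RC y := by
  obtain ⟨a, b, h1, h2⟩ := hC
  refine ⟨T Δ a, T Δ b, fun j => ?_, ?_⟩
  · rw [h, h1]
    split_ifs <;> rfl
  · rw [h2]
    unfold T
    simp only [Prod.mk.injEq, true_and]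
    abel

theorem sum_T (hk : 3 ≤ k) (f : Bool × ℕ) (hf : Valid s f) (Δ : I → K) (x y : Fin k → I × K)
    (h : ∀ j, y j = T Δ (x j)) (hx : ∀ j : Fin k, (x j).1 = s.e (q k f j)) :
    ∑ j : Fin k, dot (wt k f (q k f j)) (y j).2 =
      ∑ j : Fin k, dot (wt k f (q k f j)) (x j).2 + ev s f Δ := by
  rw [ev_eq s hk f hf, ← Finset.sum_add_distrib]
  apply Finset.sum_congr rfl
  intro j _
  rw [← dot_add_right, h j, ← hx j]
  rfl

theorem RD_T (hk : 3 ≤ k) (t t' : Bool × ℕ → ZMod 2) (Δ : I → K) (x y : Fin k → I × K)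
    (h : ∀ j, y j = T Δ (x j))
    (hΔ : ∀ f ∈ known k s.len 0, sp s f ⊆ Sys.blocks x → ev s f Δ = t f + t' f)
    (hD : RD s t x) : RD s t' y := by
  obtain ⟨f, hf, h1, h2⟩ := hD
  have hv := valid_of_known s 0 f hf
  refine ⟨f, hf, fun j => by rw [h j]; exact h1 j, ?_⟩
  rw [sum_T s hk f hv Δ x y h h1, h2, hΔ f hf]
  · rw [← add_assoc, CharTwo.add_self_eq_zero, zero_add]
  · intro a ha
    obtain ⟨i, hi, rfl⟩ := mem_image.1 ha
    obtain ⟨j, hj, rfl⟩ := q_surj s hk f i hi
    exact mem_image.2 ⟨⟨j, hj⟩, mem_univ _, h1 ⟨j, hj⟩⟩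

theorem compat (hk : 3 ≤ k) :
    (sys s).Compat (P (k := k) s ρ fun _ => 0) (P s ρ (bb k s.len)) := by
  rintro x y ⟨Δ, h1, h2⟩
  have h2' : ∀ f ∈ known k s.len 0, sp s f ⊆ Sys.blocks x → ev s f Δ = bb k s.len f := h2
  have h1' := Sys.T_symm Δ x y h1
  apply propext
  constructor
  · rintro (h | h | h | h)
    · exact Or.inl (RA_T ρ Δ x y h1 h)
    · exact Or.inr (Or.inl (RB_T Δ x y h1 h))
    · exact Or.inr (Or.inr (Or.inl (RC_T Δ x y h1 h)))
    · refine Or.inr (Or.inr (Or.inr (RD_T s hk _ _ Δ x y h1 ?_ h)))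
      intro f hf hs
      rw [h2' f hf hs, zero_add]
  · rintro (h | h | h | h)
    · exact Or.inl (RA_T ρ Δ y x h1' h)
    · exact Or.inr (Or.inl (RB_T Δ y x h1' h))
    · exact Or.inr (Or.inr (Or.inl (RC_T Δ y x h1' h)))
    · refine Or.inr (Or.inr (Or.inr (RD_T s hk _ _ Δ y x h1' ?_ h)))
      intro f hf hs
      rw [Sys.blocks_T Δ x y h1] at hs
      rw [h2' f hf hs, add_zero]

end rel

section det

variable [Fintype I] [DecidableEq I] (s : LongSeq I k) (ρ : I → ℕ)

theorem atom_eq (c₀ c₁ : (Fin k → I × K) → Prop) (x y : Fin k → I × K)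
    (h : wl c₀ 0 x = wl c₁ 0 y) (i j : Fin k) : x i = x j ↔ y i = y j :=
  iff_of_eq (congrFun (congrFun (congrArg Prod.fst h) i) j)

theorem atom_rel (c₀ c₁ : (Fin k → I × K) → Prop) (x y : Fin k → I × K)
    (h : wl c₀ 0 x = wl c₁ 0 y) (σ : Fin k → Fin k) : c₀ (x ∘ σ) ↔ c₁ (y ∘ σ) :=
  iff_of_eq (congrFun (congrArg Prod.snd h) σ)

theorem atom_le (hk : 3 ≤ k) (t t' : Bool × ℕ → ZMod 2) (x y : Fin k → I × K)
    (h : wl (P s ρ t) 0 x = wl (P s ρ t') 0 y) (i j : Fin k) :
    ρ (x i).1 ≤ ρ (x j).1 ↔ ρ (y i).1 ≤ ρ (y j).1 := by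
  have h1 := atom_rel _ _ x y h (fun l => if l.val = 0 then i else j)
  rw [P_A s ρ hk t _ (x i) (x j) (fun l => by simp only [Function.comp]; split_ifs <;> rfl),
    P_A s ρ hk t' _ (y i) (y j) (fun l => by simp only [Function.comp]; split_ifs <;> rfl)] at h1
  exact h1

omit [DecidableEq I] in
theorem block_eq (hρ : Function.Injective ρ) (a b : I)
    (h : ((univ : Finset (I × K)).filter fun w => ρ w.1 ≤ ρ a).card =
      ((univ : Finset (I × K)).filter fun w => ρ w.1 ≤ ρ b).card) : a = b := by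
  have key : ∀ a b : I, ((univ : Finset (I × K)).filter fun w => ρ w.1 ≤ ρ a).card =
      ((univ : Finset (I × K)).filter fun w => ρ w.1 ≤ ρ b).card → ρ a ≤ ρ b → a = b := by
    intro a b h hab
    have hsub : ((univ : Finset (I × K)).filter fun w => ρ w.1 ≤ ρ a) ⊆
        ((univ : Finset (I × K)).filter fun w => ρ w.1 ≤ ρ b) := by
      intro w hw
      exact mem_filter.2 ⟨mem_univ _, (mem_filter.1 hw).2.trans hab⟩
    have heq := eq_of_subset_of_card_le hsub h.ge
    have hb : ((b, 0) : I × K) ∈ ((univ : Finset (I × K)).filter fun w => ρ w.1 ≤ ρ b) :=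
      mem_filter.2 ⟨mem_univ _, le_rfl⟩
    rw [← heq] at hb
    exact hρ (le_antisymm hab (mem_filter.1 hb).2)
  rcases Nat.le_total (ρ a) (ρ b) with h' | h'
  · exact key a b h h'
  · exact (key b a h.symm h').symm

theorem K_diff1 : ∀ d e : K, d ≠ 0 → e ≠ 0 → (d = (1, 0) ↔ e = (1, 0)) →
    (d = (0, 1) ↔ e = (0, 1)) → d = e := by decide

theorem K_move : ∀ u u' c : K, u' = u + c ↔ u' + u = c := by decide

theorem K_diff (u u' v v' : K) (h1 : u ≠ u') (h2 : v ≠ v')
    (h3 : u' = u + (1, 0) ↔ v' = v + (1, 0)) (h4 : u' = u + (0, 1) ↔ v' = v + (0, 1)) :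
    u' + u = v' + v := by
  rw [K_move, K_move] at h3 h4
  refine K_diff1 _ _ (fun h => h1 ?_) (fun h => h2 ?_) h3 h4
  · rw [← K_move, add_zero] at h
    exact h.symm
  · rw [← K_move, add_zero] at h
    exact h.symm

theorem K_solve : ∀ u u' v v' : K, u' + u = v' + v → v' = u' + (v + u) := by decide

theorem Z_solve : ∀ a e b : ZMod 2, (a = 0 ↔ a + e = b) → e = b := by decide

theorem det (hk : 3 ≤ k) (hρ : Function.Injective ρ) :
    Det s (P s ρ fun _ => 0) (P s ρ (bb k s.len)) := by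
  intro x y h
  obtain ⟨h0, E, hE⟩ := (wl_succ_iff _ _ 0 x y).1 h
  -- blocks
  have hb : ∀ i, (x i).1 = (y i).1 := by
    intro i
    obtain ⟨i', hi'⟩ : ∃ i' : Fin k, i ≠ i' := by
      by_cases hi : i.val = 0
      · exact ⟨⟨1, by omega⟩, fun h => by rw [h] at hi; simp at hi⟩
      · exact ⟨⟨0, by omega⟩, fun h => by rw [h] at hi; simp at hi⟩
    apply block_eq ρ hρ
    have key : ∀ w : I × K, ρ w.1 ≤ ρ (x i).1 ↔ ρ (E w).1 ≤ ρ (y i).1 := by
      intro w
      have h1 := atom_le s ρ hk _ _ _ _ (hE w i') i' i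
      rw [Function.update_self, Function.update_self, Function.update_of_ne hi',
        Function.update_of_ne hi'] at h1
      exact h1
    refine Finset.card_equiv E ?_
    intro w
    rw [mem_filter, mem_filter]
    simp only [mem_univ, true_and]
    exact key w
  -- differences
  have hd : ∀ i j, (x i).1 = (x j).1 → (x j).2 + (x i).2 = (y j).2 + (y i).2 := by
    intro i j hij
    have hij' : (y i).1 = (y j).1 := by rw [← hb i, ← hb j, hij]
    have h1 := atom_eq _ _ x y h0 i j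
    by_cases hxx : x i = x j
    · rw [hxx, h1.1 hxx, K_add_self, K_add_self]
    have hyy : y i ≠ y j := fun h => hxx (h1.2 h)
    have h2 := atom_rel _ _ x y h0 (fun l => if l.val ≤ 1 then i else j)
    rw [P_B s ρ hk _ _ (x i) (x j) hxx (fun l => by simp only [Function.comp]; split_ifs <;> rfl),
      P_B s ρ hk _ _ (y i) (y j) hyy (fun l => by simp only [Function.comp]; split_ifs <;> rfl)]
      at h2
    have h3 := atom_rel _ _ x y h0 (fun l => if l.val = 1 then j else i)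
    rw [P_C s ρ hk _ _ (x i) (x j) hxx (fun l => by simp only [Function.comp]; split_ifs <;> rfl),
      P_C s ρ hk _ _ (y i) (y j) hyy (fun l => by simp only [Function.comp]; split_ifs <;> rfl)]
      at h3
    apply K_diff
    · exact fun h => hxx (Prod.ext hij h)
    · exact fun h => hyy (Prod.ext hij' h)
    · constructor
      · exact fun h => congrArg Prod.snd (h2.1 (Prod.ext hij.symm h))
      · exact fun h => congrArg Prod.snd (h2.2 (Prod.ext hij'.symm h))
    · constructor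
      · exact fun h => congrArg Prod.snd (h3.1 (Prod.ext hij.symm h))
      · exact fun h => congrArg Prod.snd (h3.2 (Prod.ext hij'.symm h))
  -- the difference
  classical
  let Δ : I → K := fun a => if h : ∃ i, (x i).1 = a then
    (y h.choose).2 + (x h.choose).2 else 0
  have hΔ : ∀ j, y j = T Δ (x j) := by
    intro j
    have hj : ∃ i, (x i).1 = (x j).1 := ⟨j, rfl⟩
    refine Prod.ext (hb j).symm ?_
    change (y j).2 = (x j).2 + Δ (x j).1
    simp only [Δ, dif_pos hj]
    exact K_solve _ _ _ _ (hd _ _ hj.choose_spec)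
  refine ⟨Δ, hΔ, fun f hf hs => ?_⟩
  change ev s f Δ = bb k s.len f
  have hf' : f ∈ known k s.len 0 := hf
  have hv := valid_of_known s 0 f hf
  have hs' : sp s f ⊆ Sys.blocks x := hs
  have hσ : ∀ j : Fin k, ∃ i : Fin k, (x i).1 = s.e (q k f j) := by
    intro j
    obtain ⟨i, _, hi⟩ := mem_image.1 (hs' (mem_image_of_mem _ (q_mem s hk f hv j j.2)))
    exact ⟨i, hi⟩
  choose σ hσ using hσ
  have h4 := atom_rel _ _ x y h0 σ
  rw [P_D s ρ hk _ (x ∘ σ) f hf' hσ, P_D s ρ hk _ (y ∘ σ) f hf'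
    (fun j => by rw [← hσ j]; exact (hb (σ j)).symm),
    sum_T s hk f hv Δ (x ∘ σ) (y ∘ σ) (fun j => hΔ (σ j)) hσ] at h4
  exact Z_solve _ _ _ h4

end det

end Pool.Agent.WLIter.Low
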