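import Pool.Agent.WLIter.LowF
import Pool.Agent.WLIter.LowH

/-!
# Lower bound, part G: the final estimate
-/

namespace Pool.Agent.WLIter.Low

open Finset

theorem card_V (k p : ℕ) [hp : Fact p.Prime] (hk : 3 ≤ k) :
    Fintype.card (Ix k p × K) = 8 * k * (k + 1) * p := by
  have e1 : k - 1 + 1 = k := by omega
  rw [Fintype.card_prod, Fintype.card_prod, Fintype.card_prod, Fintype.card_fin, Fintype.card_fin,
    ZMod.card, Fintype.card_prod, ZMod.card, e1]
  ring

/-- **Lower bound.** -/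
theorem lower (k : ℕ) (hk : 3 ≤ k) (n : ℕ) (hn : 32 * k * (k + 1) ^ 2 ≤ n) :
    ∃ (V : Type) (_ : Fintype V) (_ : DecidableEq V) (c c' : (Fin k → V) → Prop),
      Fintype.card V ≤ n ∧
      (∀ r ≤ k * (n / (16 * k * (k + 1))) ^ (k - 1), wlMultiset c r = wlMultiset c' r) ∧
      (∃ r, wlMultiset c r ≠ wlMultiset c' r) ∧
      (∀ r < k * (n / (16 * k * (k + 1))) ^ (k - 1), ∃ x y : Fin k → V,
        wl c r x = wl c r y ∧ wl c (r + 1) x ≠ wl c (r + 1) y) := by
  set m := n / (16 * k * (k + 1)) with hm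
  have hpos : 0 < 16 * k * (k + 1) := by positivity
  have hm2 : 2 * (k + 1) ≤ m := by
    rw [hm, Nat.le_div_iff_mul_le hpos]
    calc 2 * (k + 1) * (16 * k * (k + 1)) = 32 * k * (k + 1) ^ 2 := by ring
      _ ≤ n := hn
  obtain ⟨p, hp, hmp, hp2⟩ := Nat.exists_prime_lt_and_le_two_mul m (by omega)
  have : Fact p.Prime := ⟨hp⟩
  have hpk : 2 * (k + 1) ≤ p := by omega
  let s := longSeq (k := k) (p := p) hk hpk
  have hlen : s.len = 2 * (k + 1) * p ^ (k - 1) := rfl
  set Q := p ^ (k - 1) with hQ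
  have hpQ : p ≤ Q := Nat.le_self_pow (by omega) p
  have hlen' : s.len = 2 * ((k + 1) * Q) := by rw [hlen]; ring
  have hkQ : (k + 1) * Q = k * Q + Q := by ring
  -- the number of rounds
  set N := (k + 1) * Q - k with hN
  have hNlen : 2 * N + 1 + k < s.len := by
    rw [hlen', hN]
    omega
  have hmQ : k * m ^ (k - 1) ≤ k * Q :=
    Nat.mul_le_mul_left k (Nat.pow_le_pow_left hmp.le _)
  let ρ : Ix k p → ℕ := fun a => (Fintype.equivFin (Ix k p) a : ℕ)
  have hρ : Function.Injective ρ := fun a b h => (Fintype.equivFin (Ix k p)).injective (Fin.ext h)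
  have hA : ∀ r ≤ k * m ^ (k - 1),
      wlMultiset (P s ρ fun _ => 0) r = wlMultiset (P s ρ (bb k s.len)) r := by
    intro r hr
    apply multiset_eq' s _ _ (compat s ρ hk) hk N hNlen r
    omega
  have hB := multiset_ne s _ _ (det s ρ hk hρ) hk N hNlen
  refine ⟨Ix k p × K, inferInstance, inferInstance, P s ρ fun _ => 0,
    P s ρ (bb k s.len), ?_, hA, ⟨_, hB⟩, ?_⟩
  · rw [card_V k p hk]
    calc 8 * k * (k + 1) * p ≤ 8 * k * (k + 1) * (2 * m) := Nat.mul_le_mul_left _ hp2
      _ = 16 * k * (k + 1) * m := by ring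
      _ ≤ n := Nat.mul_div_le n _
  · intro r hr
    by_contra hcon
    push Not at hcon
    exact hB (two_structures _ _ r hcon (hA (r + 1) hr) _)

end Pool.Agent.WLIter.Low
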