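import Mathlib

/-! Wedderburn block data of a semisimple complex algebra and the relative-length inequality. -/

open Matrix

namespace Pool.Agent.WLIter

/-- Trace of an idempotent complex matrix = its rank. -/
theorem trace_eq_rank {n : Type*} [Fintype n] [DecidableEq n] (p : Matrix n n ℂ)
    (hp : IsIdempotentElem p) : p.trace = (p.rank : ℂ) := by
  have h1 : IsIdempotentElem (Matrix.toLin' p) := by
    unfold IsIdempotentElem
    rw [Module.End.mul_eq_comp, ← Matrix.toLin'_mul, hp.eq]
  have h2 := (LinearMap.IsIdempotentElem.isProj_range _ h1).trace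
  rw [Matrix.trace_toLin'_eq] at h2
  rw [h2]
  rfl

/-- The corner map `x ↦ p x p`. -/
noncomputable def corner {R : Type*} [Ring R] [Algebra ℂ R] (p : R) : R →ₗ[ℂ] R :=
  (LinearMap.mulLeft ℂ p).comp (LinearMap.mulRight ℂ p)

theorem corner_apply {R : Type*} [Ring R] [Algebra ℂ R] (p x : R) :
    corner p x = p * (x * p) := rfl

/-- dimension of a corner of a matrix algebra. -/
theorem finrank_range_corner_le {n : Type*} [Fintype n] [DecidableEq n] (p : Matrix n n ℂ)
    (hp : IsIdempotentElem p) :
    Module.finrank ℂ (LinearMap.range (corner p)) ≤ p.rank ^ 2 := by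
  set K := LinearMap.range (Matrix.toLin' p) with hK
  have hmem : ∀ v : n → ℂ, p *ᵥ v ∈ K := fun v => ⟨v, rfl⟩
  -- the map to endomorphisms of K
  let T : Matrix n n ℂ →ₗ[ℂ] (K →ₗ[ℂ] K) :=
    { toFun := fun x =>
        { toFun := fun v => ⟨p *ᵥ (x *ᵥ (v : n → ℂ)), hmem _⟩
          map_add' := by
            intro a b
            ext1
            simp [Matrix.mulVec_add]
          map_smul' := by
            intro a b
            ext1
            simp [Matrix.mulVec_smul] }
      map_add' := by
        intro a b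
        ext v i
        simp [Matrix.add_mulVec, Matrix.mulVec_add]
      map_smul' := by
        intro a b
        ext v i
        simp [Matrix.smul_mulVec, Matrix.mulVec_smul] }
  have hT : ∀ x v, ((T x v : K) : n → ℂ) = p *ᵥ (x *ᵥ (v : n → ℂ)) := fun x v => rfl
  have hinj : Function.Injective (T.domRestrict (LinearMap.range (corner p))) := by
    refine (injective_iff_map_eq_zero _).2 ?_
    rintro ⟨x, y, rfl⟩ h0
    rw [LinearMap.domRestrict_apply] at h0
    ext1
    simp only [ZeroMemClass.coe_zero]
    have h1 : ∀ w : n → ℂ, (p * (y * p)) *ᵥ w = 0 := by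
      intro w
      have h2 := congrArg (fun f => ((f ⟨p *ᵥ w, hmem w⟩ : K) : n → ℂ)) h0
      simp only [hT, LinearMap.zero_apply, ZeroMemClass.coe_zero] at h2
      rw [corner_apply] at h2
      simp only [Matrix.mulVec_mulVec] at h2
      have h3 : p * (p * (y * p) * p) = p * (y * p) := by
        rw [← mul_assoc, ← mul_assoc, hp.eq, mul_assoc, mul_assoc, hp.eq]
      rw [← mul_assoc] at h2
      rw [← h3, ← mul_assoc]
      exact h2
    rw [corner_apply]
    ext i j
    have := congrFun (h1 (Pi.single j 1)) i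
    simpa using this
  have h2 := LinearMap.finrank_le_finrank_of_injective hinj
  rw [Module.finrank_linearMap] at h2
  have h3 : Module.finrank ℂ K = p.rank := rfl
  rw [h3] at h2
  rw [sq]
  exact h2

/-- Wedderburn data of a complex algebra. -/
structure BlockData (R : Type*) [Ring R] [Algebra ℂ R] where
  /-- number of blocks -/
  s : ℕ
  /-- sizes -/
  a : Fin s → ℕ
  /-- the sizes are positive -/
  pos : ∀ i, NeZero (a i)
  /-- the isomorphism -/
  e : R ≃ₐ[ℂ] (Π i, Matrix (Fin (a i)) (Fin (a i)) ℂ)

theorem exists_blockData (R : Type*) [Ring R] [Algebra ℂ R] [IsSemisimpleRing R]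
    [FiniteDimensional ℂ R] : Nonempty (BlockData R) := by
  obtain ⟨n, d, h, ⟨e⟩⟩ := IsSemisimpleRing.exists_algEquiv_pi_matrix_of_isAlgClosed ℂ R
  exact ⟨⟨n, d, h, e⟩⟩

namespace BlockData

variable {R : Type*} [Ring R] [Algebra ℂ R] (d : BlockData R)

instance (i : Fin d.s) : NeZero (d.a i) := d.pos i

/-- matrix units -/
noncomputable def unit (i : Fin d.s) (k l : Fin (d.a i)) : R :=
  d.e.symm (Pi.single i (Matrix.single k l 1))

theorem unit_mul (i : Fin d.s) (k l l' : Fin (d.a i)) :
    d.unit i k l * d.unit i l l' = d.unit i k l' := by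
  unfold unit
  rw [← map_mul, ← Pi.single_mul, Matrix.single_mul_single_same, one_mul]

theorem unit_mul_ne (i i' : Fin d.s) (h : i ≠ i') (k l : Fin (d.a i)) (k' l' : Fin (d.a i')) :
    d.unit i k l * d.unit i' k' l' = 0 := by
  unfold unit
  rw [← map_mul]
  have : (Pi.single i (Matrix.single k l (1 : ℂ)) : Π i, Matrix (Fin (d.a i)) (Fin (d.a i)) ℂ) *
      Pi.single i' (Matrix.single k' l' (1 : ℂ)) = 0 := by
    funext j
    by_cases hj : j = i
    · subst hj
      have : j ≠ i' := h
      simp [Pi.single_eq_of_ne this]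
    · simp [Pi.single_eq_of_ne hj]
  rw [this, map_zero]

theorem sum_unit : ∑ i, ∑ k, d.unit i k k = 1 := by
  unfold unit
  simp_rw [← map_sum]
  rw [← map_one d.e.symm]
  congr 1
  funext j
  rw [Finset.sum_apply, Finset.sum_eq_single j]
  · rw [Finset.sum_apply]
    simp only [Pi.single_eq_same, Pi.one_apply]
    exact Matrix.sum_single_one
  · intro b _ hb
    rw [Finset.sum_apply]
    apply Finset.sum_eq_zero
    intro k _
    rw [Pi.single_eq_of_ne (Ne.symm hb)]
  · simp

theorem unit_ne_zero (i : Fin d.s) (k l : Fin (d.a i)) : d.unit i k l ≠ 0 := by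
  unfold unit
  intro h
  rw [EmbeddingLike.map_eq_zero_iff] at h
  have := congrFun h i
  rw [Pi.single_eq_same] at this
  have h2 := congrFun (congrFun this k) l
  simp at h2

/-- the chosen primitive idempotent of block `i` -/
noncomputable def pr (i : Fin d.s) : R := d.unit i 0 0

/-- the sum of the chosen primitive idempotents -/
noncomputable def ee : R := ∑ i, d.pr i

theorem pr_idem (i : Fin d.s) : IsIdempotentElem (d.pr i) := d.unit_mul i 0 0 0

theorem pr_mul_ne (i i' : Fin d.s) (h : i ≠ i') : d.pr i * d.pr i' = 0 :=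
  d.unit_mul_ne i i' h _ _ _ _

theorem ee_idem : IsIdempotentElem d.ee := by
  unfold IsIdempotentElem ee
  rw [Finset.sum_mul]
  apply Finset.sum_congr rfl
  intro i _
  rw [Finset.mul_sum, Finset.sum_eq_single i]
  · exact d.pr_idem i
  · intro b _ hb
    exact d.pr_mul_ne i b (Ne.symm hb)
  · simp

theorem unit_mul_ee (i : Fin d.s) (k : Fin (d.a i)) : d.unit i k 0 * d.ee = d.unit i k 0 := by
  unfold ee pr
  rw [Finset.mul_sum, Finset.sum_eq_single i]
  · exact d.unit_mul i k 0 0
  · intro b _ hb
    exact d.unit_mul_ne i b (Ne.symm hb) _ _ _ _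
  · simp

/-- `1 = ∑ u e v` with `u, v` in the algebra. -/
theorem one_eq : (1 : R) = ∑ i, ∑ k, d.unit i k 0 * d.ee * d.unit i 0 k := by
  rw [← d.sum_unit]
  apply Finset.sum_congr rfl
  intro i _
  apply Finset.sum_congr rfl
  intro k _
  rw [d.unit_mul_ee, d.unit_mul]

end BlockData

end Pool.Agent.WLIter
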