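import Mathlib

/-!
# The `k`-dimensional Weisfeiler–Leman algorithm

`V` is a finite set, `c : (Fin k → V) → α` is an arbitrary `k`-ary relational structure on `V`
(`c x` = the information carried by the tuple `x`, e.g. the set of relations that hold for `x`;
for a graph `c x` is the truth value of `x 0 ~ x 1`).
-/

namespace Pool.Agent.WLIter

universe u v

/-- The colours used by `k`-dimensional Weisfeiler–Leman in round `r`.  In round `0` a colour is an
atomic type: the equality type of the tuple together with the information carried by all the tuples
with entries among the entries of the tuple.  In round `r + 1` a colour is a pair: a colour of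
round `r` and a multiset of `k`-tuples of colours of round `r`. -/
def Colour (k : ℕ) (α : Type u) : ℕ → Type u
  | 0 => (Fin k → Fin k → Prop) × ((Fin k → Fin k) → α)
  | r + 1 => Colour k α r × Multiset (Fin k → Colour k α r)

/-- The colour of the tuple `x` after `r` rounds of `k`-dimensional Weisfeiler–Leman:
`χ₀ x` is the atomic type of `x` and
`χ_{r+1} x = (χ_r x, {{ (χ_r x[w/1], …, χ_r x[w/k]) : w ∈ V }})`. -/
def wl {k : ℕ} {α : Type u} {V : Type v} [Fintype V] [DecidableEq V] (c : (Fin k → V) → α) :
    (r : ℕ) → (Fin k → V) → Colour k α r
  | 0, x => (fun i j => x i = x j, fun σ => c (x ∘ σ))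
  | r + 1, x => (wl c r x,
      (Finset.univ : Finset V).val.map fun w i => wl c r (Function.update x i w))

/-- The multiset of the colours of all `k`-tuples after `r` rounds. -/
def wlMultiset {k : ℕ} {α : Type u} {V : Type v} [Fintype V] [DecidableEq V]
    (c : (Fin k → V) → α) (r : ℕ) : Multiset (Colour k α r) :=
  (Finset.univ : Finset (Fin k → V)).val.map (wl c r)

end Pool.Agent.WLIter
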