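import Pool.Agent.WLIter.WL

/-! Graphs as structures. -/

namespace Pool.Agent.WLIter

universe u v w

/-- The `k`-ary structure of a graph: a tuple carries the adjacencies between its entries. -/
def graphStr (k : ℕ) {V : Type v} (G : SimpleGraph V) : (Fin k → V) → (Fin k → Fin k → Prop) :=
  fun x i j => G.Adj (x i) (x j)

section

variable {k : ℕ} {V : Type v} [Fintype V] [DecidableEq V] {V' : Type w} [Fintype V']
  [DecidableEq V'] (G : SimpleGraph V) (H : SimpleGraph V')

theorem wl_iso (e : G ≃g H) (r : ℕ) : ∀ x : Fin k → V,
    wl (graphStr k G) r x = wl (graphStr k H) r (e ∘ x) := by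
  induction r with
  | zero =>
    intro x
    refine Prod.ext ?_ ?_
    · funext i j
      exact propext e.injective.eq_iff.symm
    · funext σ i j
      exact propext e.map_rel_iff.symm
  | succ r ih =>
    intro x
    rw [wl_succ_iff]
    refine ⟨ih x, e.toEquiv, fun w i => ?_⟩
    rw [ih]
    congr 1
    funext j
    by_cases h : j = i
    · subst h; simp
    · simp [Function.update_of_ne h]

theorem wlMultiset_iso (e : G ≃g H) (r : ℕ) :
    wlMultiset (graphStr k G) r = wlMultiset (graphStr k H) r :=
  map_eq_of_equiv _ _ (Equiv.arrowCongr (Equiv.refl (Fin k)) e.toEquiv) (fun x => wl_iso G H e r x)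

end

end Pool.Agent.WLIter
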