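import Pool.Agent.WLIter.WL

/-!
# Lower bound, part A: pairs of structures and systems of parity forms

`V = I × K` with `K = ZMod 2 × ZMod 2` (blocks of size 4).  A form `f` has a support (a finite set
of blocks), a value `ev f Δ ∈ ZMod 2` on differences `Δ : I → K`, and a target value `b f`.
`L r` is an increasing sequence of sets of forms with the extension property below round `N`.
-/

namespace Pool.Agent.WLIter.Low

open Pool.Agent.WLIter

/-- the group of a block -/
abbrev K : Type := ZMod 2 × ZMod 2

theorem K_add_self (u : K) : u + u = 0 := by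
  revert u; decide

/-- translation by a difference -/
def T {I : Type} (Δ : I → K) (v : I × K) : I × K := (v.1, v.2 + Δ v.1)

theorem T_T {I : Type} (Δ : I → K) (v : I × K) : T Δ (T Δ v) = v := by
  unfold T
  simp only
  rw [add_assoc, K_add_self, add_zero]

/-- translation as a permutation -/
def TE {I : Type} (Δ : I → K) : Equiv.Perm (I × K) where
  toFun := T Δ
  invFun := T Δ
  left_inv := T_T Δ
  right_inv := T_T Δ

theorem TE_apply {I : Type} (Δ : I → K) (v : I × K) : TE Δ v = T Δ v := rfl

/-- A system of forms. -/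
structure Sys (I : Type) where
  /-- the forms -/
  Φ : Type
  /-- support -/
  supp : Φ → Finset I
  /-- value -/
  ev : Φ → (I → K) → ZMod 2
  /-- additivity -/
  ev_add : ∀ f Δ Δ', ev f (Δ + Δ') = ev f Δ + ev f Δ'
  /-- locality -/
  ev_congr : ∀ f Δ Δ', (∀ i ∈ supp f, Δ i = Δ' i) → ev f Δ = ev f Δ'
  /-- target value -/
  b : Φ → ZMod 2
  /-- the forms known after `r` rounds -/
  L : ℕ → Set Φ
  /-- monotone -/
  L_mono : ∀ r, L r ⊆ L (r + 1)

namespace Sys

variable {I : Type} [Fintype I] [DecidableEq I] (S : Sys I) {k : ℕ}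

/-- the blocks of a tuple -/
def blocks (x : Fin k → I × K) : Finset I := Finset.univ.image fun j => (x j).1

omit [Fintype I] in
theorem mem_blocks (x : Fin k → I × K) (j : Fin k) : (x j).1 ∈ blocks x :=
  Finset.mem_image_of_mem _ (Finset.mem_univ j)

omit [Fintype I] in
theorem card_blocks_le (x : Fin k → I × K) : (blocks x).card ≤ k := by
  unfold blocks
  exact Finset.card_image_le.trans (by simp)

/-- the relation between the two structures given by the forms of `L r` -/
def Rel (r : ℕ) (x y : Fin k → I × K) : Prop :=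
  ∃ Δ : I → K, (∀ j, y j = T Δ (x j)) ∧ ∀ f ∈ S.L r, S.supp f ⊆ blocks x → S.ev f Δ = S.b f

omit [Fintype I] in
theorem blocks_T (Δ : I → K) (x y : Fin k → I × K) (h : ∀ j, y j = T Δ (x j)) :
    blocks y = blocks x := by
  unfold blocks
  congr 1
  funext j
  rw [h j]
  rfl

omit [Fintype I] [DecidableEq I] in
theorem ev_zero (f : S.Φ) : S.ev f 0 = 0 := by
  have := S.ev_add f 0 0
  rw [add_zero] at this
  simpa using this

omit [Fintype I] [DecidableEq I] in
theorem T_comp (Δ Δ' : I → K) (x y z : Fin k → I × K) (h : ∀ j, y j = T Δ (x j))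
    (h' : ∀ j, z j = T Δ' (y j)) : ∀ j, z j = T (Δ + Δ') (x j) := by
  intro j
  rw [h' j, h j]
  unfold T
  simp [add_assoc]

omit [Fintype I] [DecidableEq I] in
theorem T_symm (Δ : I → K) (x y : Fin k → I × K) (h : ∀ j, y j = T Δ (x j)) :
    ∀ j, x j = T Δ (y j) := fun j => by rw [h j, T_T]

omit [Fintype I] in
theorem rel_mono (r : ℕ) (x y : Fin k → I × K) (h : S.Rel (r + 1) x y) : S.Rel r x y := by
  obtain ⟨Δ, h1, h2⟩ := h
  exact ⟨Δ, h1, fun f hf hs => h2 f (S.L_mono r hf) hs⟩

/-- A pair of structures compatible with the system. -/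
def Compat {α : Type} (c₀ c₁ : (Fin k → I × K) → α) : Prop := ∀ x y, S.Rel 0 x y → c₀ x = c₁ y

/-- the extension property -/
def Ext (k N : ℕ) : Prop := ∀ r < N, ∀ B : Finset I, B.card ≤ k → ∀ Δ : I → K,
  (∀ f ∈ S.L (r + 1), S.supp f ⊆ B → S.ev f Δ = S.b f) → ∀ d, d ∉ B →
    ∃ u : K, ∀ f ∈ S.L r, d ∈ S.supp f → S.supp f ⊆ insert d B →
      S.ev f (Function.update Δ d u) = S.b f

/-- **Indistinguishability of tuples.** -/
theorem wl_of_rel {α : Type} (c₀ c₁ : (Fin k → I × K) → α) (hc : S.Compat c₀ c₁) (N : ℕ)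
    (hE : S.Ext k N) (r : ℕ) : r ≤ N → ∀ x y : Fin k → I × K, S.Rel r x y →
    wl c₀ r x = wl c₁ r y := by
  induction r with
  | zero =>
    rintro _ x y ⟨Δ, h1, h2⟩
    refine Prod.ext ?_ ?_
    · funext i j
      apply propext
      change x i = x j ↔ y i = y j
      rw [h1 i, h1 j]
      exact (TE Δ).injective.eq_iff.symm
    · funext σ
      change c₀ (x ∘ σ) = c₁ (y ∘ σ)
      apply hc
      refine ⟨Δ, fun j => h1 (σ j), fun f hf hs => h2 f hf (hs.trans ?_)⟩
      intro i hi
      unfold blocks at hi
      rw [Finset.mem_image] at hi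
      obtain ⟨j, _, rfl⟩ := hi
      exact mem_blocks x (σ j)
  | succ r ih =>
    intro hr x y h
    rw [wl_succ_iff]
    refine ⟨ih (by omega) x y (S.rel_mono r x y h), ?_⟩
    obtain ⟨Δ, h1, h2⟩ := h
    have hu : ∀ d, ∃ u : K, d ∉ blocks x → ∀ f ∈ S.L r, d ∈ S.supp f →
        S.supp f ⊆ insert d (blocks x) → S.ev f (Function.update Δ d u) = S.b f := by
      intro d
      by_cases hd : d ∈ blocks x
      · exact ⟨0, fun h => absurd hd h⟩
      · obtain ⟨u, hu⟩ := hE r (by omega) (blocks x) (card_blocks_le x) Δ h2 d hd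
        exact ⟨u, fun _ => hu⟩
    choose u hu using hu
    let Δ' : I → K := fun d => if d ∈ blocks x then Δ d else u d
    refine ⟨TE Δ', fun w i => ih (by omega) _ _ ⟨Δ', fun j => ?_, fun f hf hs => ?_⟩⟩
    · by_cases hj : j = i
      · subst hj; simp [TE_apply]
      · rw [Function.update_of_ne hj, Function.update_of_ne hj, h1 j]
        unfold T
        simp only [Δ', if_pos (mem_blocks x j)]
    · have hsub : blocks (Function.update x i w) ⊆ insert w.1 (blocks x) := by
        intro a ha
        unfold blocks at ha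
        rw [Finset.mem_image] at ha
        obtain ⟨j, _, rfl⟩ := ha
        by_cases hj : j = i
        · subst hj; simp
        · rw [Function.update_of_ne hj]
          exact Finset.mem_insert_of_mem (mem_blocks x j)
      by_cases hfB : S.supp f ⊆ blocks x
      · rw [S.ev_congr f Δ' Δ (fun a ha => by simp only [Δ', if_pos (hfB ha)])]
        exact h2 f (S.L_mono r hf) hfB
      · have hs' := hs.trans hsub
        have hw : w.1 ∉ blocks x := by
          intro hw
          apply hfB
          rwa [Finset.insert_eq_of_mem hw] at hs'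
        have hwf : w.1 ∈ S.supp f := by
          by_contra hwf
          apply hfB
          intro a ha
          rcases Finset.mem_insert.1 (hs' ha) with h | h
          · exact absurd (h ▸ ha) hwf
          · exact h
        rw [← hu w.1 hw f hf hwf hs']
        apply S.ev_congr
        intro a ha
        by_cases haw : a = w.1
        · subst haw
          simp only [Δ', if_neg hw, Function.update_self]
        · rw [Function.update_of_ne haw]
          have : a ∈ blocks x := by
            rcases Finset.mem_insert.1 (hs' ha) with h | h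
            · exact absurd h haw
            · exact h
          simp only [Δ', if_pos this]

omit [Fintype I] [DecidableEq I] in
theorem L_le {r r' : ℕ} (h : r ≤ r') : S.L r ⊆ S.L r' := by
  induction r', h using Nat.le_induction with
  | base => exact subset_rfl
  | succ n _ ih => exact ih.trans (S.L_mono n)

omit [Fintype I] in
/-- solutions on small sets of blocks -/
theorem exists_sol (N : ℕ) (hE : S.Ext k N) (hne : ∀ r, ∀ f ∈ S.L r, (S.supp f).Nonempty)
    (r : ℕ) (hr : r + k ≤ N) (m : ℕ) : m ≤ k → ∀ B : Finset I, B.card = m →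
      ∃ Δ : I → K, ∀ f ∈ S.L (r + (k - m)), S.supp f ⊆ B → S.ev f Δ = S.b f := by
  induction m with
  | zero =>
    intro _ B hB
    refine ⟨0, fun f hf hs => ?_⟩
    rw [Finset.card_eq_zero] at hB
    subst hB
    obtain ⟨a, ha⟩ := hne _ f hf
    exact absurd (hs ha) (Finset.notMem_empty a)
  | succ m ih =>
    intro hm B hB
    obtain ⟨d, B', hd, rfl, hB'⟩ := Finset.card_eq_succ.1 hB
    obtain ⟨Δ, hΔ⟩ := ih (by omega) B' hB'
    have e1 : r + (k - m) = r + (k - (m + 1)) + 1 := by omega
    rw [e1] at hΔ
    obtain ⟨u, hu⟩ := hE (r + (k - (m + 1))) (by omega) B' (by omega) Δ hΔ d hd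
    refine ⟨Function.update Δ d u, fun f hf hs => ?_⟩
    by_cases hdf : d ∈ S.supp f
    · exact hu f hf hdf hs
    · have hs' : S.supp f ⊆ B' := by
        intro a ha
        rcases Finset.mem_insert.1 (hs ha) with h | h
        · exact absurd (h ▸ ha) hdf
        · exact h
      rw [← hΔ f (S.L_mono _ hf) hs']
      apply S.ev_congr
      intro a ha
      rw [Function.update_of_ne]
      rintro rfl
      exact hdf ha

/-- **Indistinguishability of the two structures.** -/
theorem multiset_eq {α : Type} (c₀ c₁ : (Fin k → I × K) → α) (hc : S.Compat c₀ c₁) (N : ℕ)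
    (hE : S.Ext k N) (hne : ∀ r, ∀ f ∈ S.L r, (S.supp f).Nonempty)
    (r : ℕ) (hr : r + k ≤ N) : wlMultiset c₀ r = wlMultiset c₁ r := by
  have hD : ∀ B : Finset I, ∃ Δ : I → K, B.card ≤ k →
      ∀ f ∈ S.L r, S.supp f ⊆ B → S.ev f Δ = S.b f := by
    intro B
    by_cases hB : B.card ≤ k
    · obtain ⟨Δ, hΔ⟩ := S.exists_sol N hE hne r hr B.card hB B rfl
      exact ⟨Δ, fun _ f hf => hΔ f (S.L_le (by omega) hf)⟩
    · exact ⟨0, fun h => absurd h hB⟩
  choose D hD using hD
  let φ : (Fin k → I × K) → (Fin k → I × K) := fun x j => T (D (blocks x)) (x j)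
  have hφ : Function.Involutive φ := by
    intro x
    have hb : blocks (φ x) = blocks x := blocks_T (D (blocks x)) x (φ x) (fun _ => rfl)
    funext j
    change T (D (blocks (φ x))) (T (D (blocks x)) (x j)) = x j
    rw [hb, T_T]
  refine map_eq_of_equiv _ _ hφ.toPerm (fun x => ?_)
  exact S.wl_of_rel c₀ c₁ hc N hE r (by omega) x (φ x)
    ⟨D (blocks x), fun _ => rfl, hD (blocks x) (card_blocks_le x)⟩

end Sys

end Pool.Agent.WLIter.Low
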