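import Pool.Agent.WLIter.LowA

/-!
# Lower bound, part B: the concrete system of forms
-/

namespace Pool.Agent.WLIter.Low

open Finset

/-- pairing -/
def dot (a u : K) : ZMod 2 := a.1 * u.1 + a.2 * u.2

theorem dot_add_right (a u v : K) : dot a (u + v) = dot a u + dot a v := by
  unfold dot; simp only [Prod.fst_add, Prod.snd_add]; ring

theorem dot_add_left (a b u : K) : dot (a + b) u = dot a u + dot b u := by
  unfold dot; simp only [Prod.fst_add, Prod.snd_add]; ring

theorem dot_zero_left (u : K) : dot 0 u = 0 := by simp [dot]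

theorem dot_zero_right (u : K) : dot u 0 = 0 := by simp [dot]

/-- solvability of parity equations for one element of `K` -/
theorem solvable (P : Set (K × ZMod 2)) (h0 : ∀ x ∈ P, x.1 ≠ 0)
    (h1 : ∀ x ∈ P, ∀ y ∈ P, x.1 = y.1 → x.2 = y.2)
    (h2 : ∀ x ∈ P, ∀ y ∈ P, ∀ z ∈ P, x.1 ≠ y.1 → y.1 ≠ z.1 → x.1 ≠ z.1 → x.2 + y.2 + z.2 = 0) :
    ∃ u : K, ∀ x ∈ P, dot x.1 u = x.2 := by
  have hK : ∀ a : K, a ≠ 0 → a = (1, 0) ∨ a = (0, 1) ∨ a = (1, 1) := by decide
  have hz : ∀ a b c : ZMod 2, a + b + c = 0 → c = a + b := by decide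
  have hz2 : ∀ a b : ZMod 2, a + (a + b) = b := by decide
  have hz3 : ∀ a b : ZMod 2, (a + b) + b = a := by decide
  by_cases hp : ∃ c, (((1, 0) : K), c) ∈ P
  · obtain ⟨cp, hp⟩ := hp
    by_cases hq : ∃ c, (((0, 1) : K), c) ∈ P
    · obtain ⟨cq, hq⟩ := hq
      refine ⟨(cp, cq), fun x hx => ?_⟩
      obtain ⟨a, c⟩ := x
      rcases hK a (h0 _ hx) with rfl | rfl | rfl
      · have := h1 _ hx _ hp rfl; simp only at this; simp [dot, this]
      · have := h1 _ hx _ hq rfl; simp only at this; simp [dot, this]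
      · have := h2 _ hp _ hq _ hx (show ((1, 0) : K) ≠ (0, 1) by decide)
          (show ((0, 1) : K) ≠ (1, 1) by decide) (show ((1, 0) : K) ≠ (1, 1) by decide)
        have := hz _ _ _ this
        simp only at this; simp [dot, this]
    · by_cases hs : ∃ c, (((1, 1) : K), c) ∈ P
      · obtain ⟨cs, hs⟩ := hs
        refine ⟨(cp, cp + cs), fun x hx => ?_⟩
        obtain ⟨a, c⟩ := x
        rcases hK a (h0 _ hx) with rfl | rfl | rfl
        · have := h1 _ hx _ hp rfl; simp only at this; simp [dot, this]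
        · exact absurd ⟨_, hx⟩ hq
        · have := h1 _ hx _ hs rfl; simp only at this; simp [dot, this, hz2]
      · refine ⟨(cp, 0), fun x hx => ?_⟩
        obtain ⟨a, c⟩ := x
        rcases hK a (h0 _ hx) with rfl | rfl | rfl
        · have := h1 _ hx _ hp rfl; simp only at this; simp [dot, this]
        · exact absurd ⟨_, hx⟩ hq
        · exact absurd ⟨_, hx⟩ hs
  · by_cases hq : ∃ c, (((0, 1) : K), c) ∈ P
    · obtain ⟨cq, hq⟩ := hq
      by_cases hs : ∃ c, (((1, 1) : K), c) ∈ P
      · obtain ⟨cs, hs⟩ := hs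
        refine ⟨(cs + cq, cq), fun x hx => ?_⟩
        obtain ⟨a, c⟩ := x
        rcases hK a (h0 _ hx) with rfl | rfl | rfl
        · exact absurd ⟨_, hx⟩ hp
        · have := h1 _ hx _ hq rfl; simp only at this; simp [dot, this]
        · have := h1 _ hx _ hs rfl; simp only at this; simp [dot, this, hz3]
      · refine ⟨(0, cq), fun x hx => ?_⟩
        obtain ⟨a, c⟩ := x
        rcases hK a (h0 _ hx) with rfl | rfl | rfl
        · exact absurd ⟨_, hx⟩ hp
        · have := h1 _ hx _ hq rfl; simp only at this; simp [dot, this]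
        · exact absurd ⟨_, hx⟩ hs
    · by_cases hs : ∃ c, (((1, 1) : K), c) ∈ P
      · obtain ⟨cs, hs⟩ := hs
        refine ⟨(cs, 0), fun x hx => ?_⟩
        obtain ⟨a, c⟩ := x
        rcases hK a (h0 _ hx) with rfl | rfl | rfl
        · exact absurd ⟨_, hx⟩ hp
        · exact absurd ⟨_, hx⟩ hq
        · have := h1 _ hx _ hs rfl; simp only at this; simp [dot, this]
      · refine ⟨0, fun x hx => ?_⟩
        obtain ⟨a, c⟩ := x
        rcases hK a (h0 _ hx) with rfl | rfl | rfl
        · exact absurd ⟨_, hx⟩ hp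
        · exact absurd ⟨_, hx⟩ hq
        · exact absurd ⟨_, hx⟩ hs

/-- A long sequence of blocks in which the `(k-1)`-subsets of windows are unique. -/
structure LongSeq (I : Type) [DecidableEq I] (k : ℕ) where
  /-- the sequence -/
  e : ℕ → I
  /-- its length -/
  len : ℕ
  /-- `k + 2` consecutive blocks are distinct -/
  inj : ∀ i j, i < len → j < len → i ≤ j → j ≤ i + k + 1 → e i = e j → i = j
  /-- uniqueness -/
  uniq : ∀ (A A' : Finset ℕ) (t t' : ℕ), A ⊆ Icc t (t + k) → A' ⊆ Icc t' (t' + k) →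
    (∀ i ∈ A, i < len) → (∀ i ∈ A', i < len) → A.card = k - 1 → A'.card = k - 1 →
    A.image e = A'.image e → A = A'

section weights

variable (k : ℕ)

/-- functionals of `F` by offset -/
def phi (o : ℕ) : K :=
  if o = k - 1 then (if Even (k - 2) then (1, 1) else (1, 0)) else
    (if Even o then (1, 1) else (1, 0))

theorem phi_cases (o : ℕ) : phi k o = (1, 1) ∨ phi k o = (1, 0) := by
  unfold phi
  split_ifs <;> simp

theorem phi_ne_zero (o : ℕ) : phi k o ≠ 0 := by
  rcases phi_cases k o with h | h <;> rw [h] <;> decide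

theorem phi_last (hk : 3 ≤ k) : phi k (k - 1) = phi k (k - 2) := by
  unfold phi
  rw [if_pos rfl, if_neg (show ¬ (k - 2 = k - 1) by omega)]

theorem phi_ne (o : ℕ) (ho : 1 ≤ o) (ho' : o + 1 < k) : phi k o ≠ phi k (o - 1) := by
  unfold phi
  rw [if_neg (show ¬ (o = k - 1) by omega), if_neg (show ¬ (o - 1 = k - 1) by omega)]
  rcases Nat.even_or_odd o with h | h
  · have h' : ¬ Even (o - 1) := by
      rw [Nat.even_sub ho]; simp [h]
    rw [if_pos h, if_neg h']
    decide
  · have h' : Even (o - 1) := by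
      rw [Nat.even_sub ho]
      have : ¬ Even o := Nat.not_even_iff_odd.2 h
      simp [this]
    rw [if_neg (Nat.not_even_iff_odd.2 h), if_pos h']
    decide

/-- weight of `F_t` at position `j` -/
def wF (t j : ℕ) : K := if t ≤ j ∧ j < t + k then phi k (j - t) else 0

/-- weight of `G_t` -/
def wG (t j : ℕ) : K := wF k t j + wF k (t + 1) j

theorem wF_ne_zero (t j : ℕ) : wF k t j ≠ 0 ↔ t ≤ j ∧ j < t + k := by
  unfold wF
  split_ifs with h
  · simp [h, phi_ne_zero]
  · simp [h]

theorem wG_ne_zero (hk : 3 ≤ k) (t j : ℕ) :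
    wG k t j ≠ 0 ↔ t ≤ j ∧ j ≤ t + k ∧ j ≠ t + k - 1 := by
  unfold wG
  by_cases h1 : t ≤ j ∧ j < t + k
  · by_cases h2 : t + 1 ≤ j ∧ j < t + 1 + k
    · unfold wF
      rw [if_pos h1, if_pos h2]
      have e1 : j - (t + 1) = (j - t) - 1 := by omega
      rw [e1]
      by_cases h3 : j = t + k - 1
      · have e2 : j - t = k - 1 := by omega
        have e3 : k - 1 - 1 = k - 2 := by omega
        rw [e2, e3, phi_last k hk, K_add_self]
        simp [h3]
      · have := phi_ne k (j - t) (by omega) (by omega)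
        constructor
        · intro _; omega
        · intro _ h0
          apply this
          have h4 : phi k (j - t) + phi k (j - t - 1) + phi k (j - t - 1) =
            phi k (j - t - 1) := by rw [h0, zero_add]
          rwa [add_assoc, K_add_self, add_zero] at h4
    · have e1 : wF k (t + 1) j = 0 := by unfold wF; rw [if_neg h2]
      rw [e1, add_zero, wF_ne_zero]
      omega
  · have e1 : wF k t j = 0 := by unfold wF; rw [if_neg h1]
    rw [e1, zero_add, wF_ne_zero]
    omega

/-- the special pair `F_t`, `G_{t+1}` never has equal weights on common positions. -/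
theorem special_ne (hk : 3 ≤ k) (t j : ℕ) (h1 : wF k t j ≠ 0) (h2 : wG k (t + 1) j ≠ 0) :
    wF k t j ≠ wG k (t + 1) j := by
  rw [wF_ne_zero] at h1
  rw [wG_ne_zero k hk] at h2
  unfold wG
  have e1 : wF k t j = phi k (j - t) := by unfold wF; rw [if_pos h1]
  have e2 : wF k (t + 1) j = phi k (j - (t + 1)) := by
    unfold wF; rw [if_pos ⟨h2.1, by omega⟩]
  by_cases h3 : t + 2 ≤ j
  · have e3 : wF k (t + 1 + 1) j = phi k (j - (t + 2)) := by
      unfold wF; rw [if_pos ⟨by omega, by omega⟩]
    rw [e1, e2, e3]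
    rcases phi_cases k (j - t) with h | h <;> rcases phi_cases k (j - (t + 1)) with h' | h' <;>
      rcases phi_cases k (j - (t + 2)) with h'' | h'' <;> rw [h, h', h''] <;> decide
  · have hj : j = t + 1 := by omega
    have e3 : wF k (t + 1 + 1) j = 0 := by
      unfold wF; rw [if_neg (by omega)]
    rw [e1, e2, e3, add_zero]
    have := phi_ne k 1 le_rfl (by omega)
    have e4 : j - t = 1 := by omega
    have e5 : j - (t + 1) = 1 - 1 := by omega
    rw [e4, e5]
    exact this

end weights

end Pool.Agent.WLIter.Low
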