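import Pool.Agent.WLIter.LowB

/-!
# Lower bound, part C: the system of forms of a long sequence and its extension property
-/

namespace Pool.Agent.WLIter.Low

open Finset

variable {I : Type} [DecidableEq I] {k : ℕ}

/-- weight of a form: `(false, t)` is `F_t`, `(true, t)` is `G_t`. -/
def wt (k : ℕ) (f : Bool × ℕ) (j : ℕ) : K := if f.1 then wG k f.2 j else wF k f.2 j

theorem wt_F (t j : ℕ) : wt k (false, t) j = wF k t j := rfl

theorem wt_G (t j : ℕ) : wt k (true, t) j = wG k t j := rfl

/-- The forms known after `r` rounds. -/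
def known (k len r : ℕ) : Set (Bool × ℕ) :=
  {f | if f.1 then f.2 + k < len else (f.2 ≤ r ∨ len ≤ f.2 + k + r) ∧ f.2 + k ≤ len}

/-- Target values: `0` near the start, `1` near the end. -/
def bb (k len : ℕ) (f : Bool × ℕ) : ZMod 2 := if f.1 then 0 else if 2 * f.2 + k ≤ len then 0 else 1

/-- The system of forms. -/
def sys (s : LongSeq I k) : Sys I where
  Φ := Bool × ℕ
  supp f := ((range s.len).filter fun j => wt k f j ≠ 0).image s.e
  ev f Δ := ∑ j ∈ range s.len, dot (wt k f j) (Δ (s.e j))
  ev_add f Δ Δ' := by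
    rw [← Finset.sum_add_distrib]
    apply Finset.sum_congr rfl
    intro j _
    rw [Pi.add_apply, dot_add_right]
  ev_congr f Δ Δ' h := by
    apply Finset.sum_congr rfl
    intro j hj
    by_cases hw : wt k f j = 0
    · rw [hw, dot_zero_left, dot_zero_left]
    · rw [h (s.e j) (mem_image_of_mem _ (mem_filter.2 ⟨hj, hw⟩))]
  b f := bb k s.len f
  L r := known k s.len r
  L_mono r := by
    rintro ⟨b, t⟩ h
    cases b
    · simp only [known, Set.mem_ofPred_eq, Bool.false_eq_true, if_false] at h ⊢
      omega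
    · simpa [known] using h

variable (s : LongSeq I k)

/-- positions of a form -/
def pos (s : LongSeq I k) (f : Bool × ℕ) : Finset ℕ := (range s.len).filter fun j => wt k f j ≠ 0

theorem mem_pos_F (t j : ℕ) : j ∈ pos s (false, t) ↔ j < s.len ∧ t ≤ j ∧ j < t + k := by
  unfold pos
  rw [mem_filter, mem_range, wt_F, wF_ne_zero]

theorem mem_pos_G (hk : 3 ≤ k) (t j : ℕ) :
    j ∈ pos s (true, t) ↔ j < s.len ∧ t ≤ j ∧ j ≤ t + k ∧ j ≠ t + k - 1 := by
  unfold pos
  rw [mem_filter, mem_range, wt_G, wG_ne_zero k hk]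

/-- validity of a form -/
def Valid (s : LongSeq I k) (f : Bool × ℕ) : Prop :=
  if f.1 then f.2 + k < s.len else f.2 + k ≤ s.len

theorem valid_of_known (r : ℕ) (f : Bool × ℕ) (h : f ∈ known k s.len r) : Valid s f := by
  obtain ⟨b, t⟩ := f
  cases b
  · simp only [known, Valid, Set.mem_ofPred_eq, Bool.false_eq_true, if_false] at h ⊢
    exact h.2
  · simpa [known, Valid] using h

theorem pos_sub (hk : 3 ≤ k) (f : Bool × ℕ) : pos s f ⊆ Icc f.2 (f.2 + k) := by
  obtain ⟨b, t⟩ := f
  intro j hj
  rw [mem_Icc]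
  cases b
  · rw [mem_pos_F] at hj; simp only; omega
  · rw [mem_pos_G s hk] at hj; simp only; omega

theorem card_pos (hk : 3 ≤ k) (f : Bool × ℕ) (hf : Valid s f) : (pos s f).card = k := by
  obtain ⟨b, t⟩ := f
  cases b
  · simp only [Valid, Bool.false_eq_true, if_false] at hf
    have : pos s (false, t) = Ico t (t + k) := by
      ext j; rw [mem_pos_F, mem_Ico]; omega
    rw [this, Nat.card_Ico]; omega
  · simp only [Valid, if_true] at hf
    have : pos s (true, t) = (Icc t (t + k)).erase (t + k - 1) := by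
      ext j; rw [mem_pos_G s hk, mem_erase, mem_Icc]; omega
    rw [this, card_erase_of_mem (by rw [mem_Icc]; omega), Nat.card_Icc]; omega

theorem inj_pos (hk : 3 ≤ k) (f : Bool × ℕ) : Set.InjOn s.e (pos s f : Set ℕ) := by
  intro i hi j hj hij
  have hi' := mem_Icc.1 (pos_sub s hk f hi)
  have hj' := mem_Icc.1 (pos_sub s hk f hj)
  have hi2 : i < s.len := mem_range.1 (mem_filter.1 hi).1
  have hj2 : j < s.len := mem_range.1 (mem_filter.1 hj).1
  rcases Nat.le_total i j with h | h
  · exact s.inj i j hi2 hj2 h (by omega) hij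
  · exact (s.inj j i hj2 hi2 h (by omega) hij.symm).symm

/-- **Coincidences.** Two valid forms whose supports have a union of at most `k + 1` blocks share
at least `k - 1` positions; common blocks come from common positions. -/
theorem common (hk : 3 ≤ k) (f f' : Bool × ℕ) (hf : Valid s f) (hf' : Valid s f')
    (C : Finset I) (hC : C.card ≤ k + 1) (h1 : (pos s f).image s.e ⊆ C)
    (h2 : (pos s f').image s.e ⊆ C) (d : I) (hd : d ∈ (pos s f).image s.e)
    (hd' : d ∈ (pos s f').image s.e) :
    k - 1 ≤ (pos s f ∩ pos s f').card ∧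
      ∃ j, j ∈ pos s f ∧ j ∈ pos s f' ∧ s.e j = d := by
  have c1 : ((pos s f).image s.e).card = k := by
    rw [card_image_of_injOn (inj_pos s hk f), card_pos s hk f hf]
  have c2 : ((pos s f').image s.e).card = k := by
    rw [card_image_of_injOn (inj_pos s hk f'), card_pos s hk f' hf']
  have c3 : ((pos s f).image s.e ∪ (pos s f').image s.e).card ≤ k + 1 :=
    (card_le_card (union_subset h1 h2)).trans hC
  have c4 := card_union_add_card_inter ((pos s f).image s.e) ((pos s f').image s.e)
  set D := (pos s f).image s.e ∩ (pos s f').image s.e with hD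
  have hdD : d ∈ D := mem_inter.2 ⟨hd, hd'⟩
  obtain ⟨E, hE1, hE2, hE3⟩ := exists_subsuperset_card_eq (n := k - 1)
    (singleton_subset_iff.2 hdD) (by rw [card_singleton]; omega) (by omega)
  have key : ∀ g : Bool × ℕ, D ⊆ (pos s g).image s.e →
      ((pos s g).filter fun j => s.e j ∈ E).image s.e = E ∧
      ((pos s g).filter fun j => s.e j ∈ E).card = k - 1 := by
    intro g hg
    have e1 : ((pos s g).filter fun j => s.e j ∈ E).image s.e = E := by
      ext a
      rw [mem_image]
      constructor
      · rintro ⟨j, hj, rfl⟩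
        exact (mem_filter.1 hj).2
      · intro ha
        obtain ⟨j, hj, rfl⟩ := mem_image.1 (hg (hE2 ha))
        exact ⟨j, mem_filter.2 ⟨hj, ha⟩, rfl⟩
    refine ⟨e1, ?_⟩
    rw [← card_image_of_injOn (f := s.e), e1, hE3]
    intro i hi j hj hij
    exact inj_pos s hk g (mem_filter.1 hi).1 (mem_filter.1 hj).1 hij
  obtain ⟨a1, a2⟩ := key f inter_subset_left
  obtain ⟨b1, b2⟩ := key f' inter_subset_right
  have heq := s.uniq _ _ f.2 f'.2 ((filter_subset _ _).trans (pos_sub s hk f))
    ((filter_subset _ _).trans (pos_sub s hk f'))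
    (fun i hi => mem_range.1 (mem_filter.1 (mem_filter.1 hi).1).1)
    (fun i hi => mem_range.1 (mem_filter.1 (mem_filter.1 hi).1).1) a2 b2 (a1.trans b1.symm)
  constructor
  · rw [← a2]
    apply card_le_card
    intro j hj
    rw [mem_inter]
    exact ⟨(mem_filter.1 hj).1, (mem_filter.1 (heq ▸ hj)).1⟩
  · have hdE : d ∈ E := hE1 (mem_singleton_self d)
    rw [← a1] at hdE
    obtain ⟨j, hj, hj'⟩ := mem_image.1 hdE
    exact ⟨j, (mem_filter.1 hj).1, (mem_filter.1 (heq ▸ hj)).1, hj'⟩

/-- two positions in the difference would be too many -/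
theorem two_out (hk : 3 ≤ k) (f f' : Bool × ℕ) (hf' : Valid s f')
    (h : k - 1 ≤ (pos s f ∩ pos s f').card) (a b : ℕ) (ha : a ∈ pos s f') (ha' : a ∉ pos s f)
    (hb : b ∈ pos s f') (hb' : b ∉ pos s f) : a = b := by
  by_contra hab
  have h1 : insert a (insert b (pos s f ∩ pos s f')) ⊆ pos s f' := by
    intro x hx
    rcases mem_insert.1 hx with rfl | hx
    · exact ha
    rcases mem_insert.1 hx with rfl | hx
    · exact hb
    exact (mem_inter.1 hx).2
  have h2 := card_le_card h1
  rw [card_insert_of_notMem, card_insert_of_notMem, card_pos s hk f' hf'] at h2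
  · omega
  · exact fun hx => hb' (mem_inter.1 hx).1
  · intro hx
    rcases mem_insert.1 hx with hx | hx
    · exact hab hx
    · exact ha' (mem_inter.1 hx).1

/-- classification of coincidences -/
theorem classFF (hk : 3 ≤ k) (t t' : ℕ) (hf : Valid s (false, t)) (hf' : Valid s (false, t'))
    (h : k - 1 ≤ (pos s (false, t) ∩ pos s (false, t')).card) (htt : t < t') : t' = t + 1 := by
  by_contra hne
  simp only [Valid, Bool.false_eq_true, if_false] at hf hf'
  have := two_out s hk (false, t) (false, t') (by simpa [Valid] using hf') h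
    (t' + k - 1) (t' + k - 2) (by rw [mem_pos_F]; omega) (by rw [mem_pos_F]; omega)
    (by rw [mem_pos_F]; omega) (by rw [mem_pos_F]; omega)
  omega

theorem classFG (hk : 3 ≤ k) (t t' : ℕ) (hf : Valid s (false, t)) (hf' : Valid s (true, t'))
    (h : k - 1 ≤ (pos s (false, t) ∩ pos s (true, t')).card) :
    t' = t ∨ t = t' + 1 ∨ t' = t + 1 := by
  by_contra hne
  simp only [Valid, Bool.false_eq_true, if_false, if_true] at hf hf'
  rcases Nat.lt_or_ge t t' with h1 | h1
  · have := two_out s hk (false, t) (true, t') (by simpa [Valid] using hf') h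
      (t' + k) (t' + k - 2) (by rw [mem_pos_G s hk]; omega) (by rw [mem_pos_F]; omega)
      (by rw [mem_pos_G s hk]; omega) (by rw [mem_pos_F]; omega)
    omega
  · have := two_out s hk (false, t) (true, t') (by simpa [Valid] using hf') h
      t' (t' + 1) (by rw [mem_pos_G s hk]; omega) (by rw [mem_pos_F]; omega)
      (by rw [mem_pos_G s hk]; omega) (by rw [mem_pos_F]; omega)
    omega

theorem classGG (hk : 3 ≤ k) (t t' : ℕ) (hf : Valid s (true, t)) (hf' : Valid s (true, t'))
    (h : k - 1 ≤ (pos s (true, t) ∩ pos s (true, t')).card) (htt : t < t') : False := by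
  simp only [Valid, if_true] at hf hf'
  rcases Nat.lt_or_ge t' (t + 3) with h1 | h1
  · have := two_out s hk (true, t) (true, t') (by simpa [Valid] using hf') h
      (t' + k) (t + k - 1) (by rw [mem_pos_G s hk]; omega) (by rw [mem_pos_G s hk]; omega)
      (by rw [mem_pos_G s hk]; omega) (by rw [mem_pos_G s hk]; omega)
    omega
  · have := two_out s hk (true, t) (true, t') (by simpa [Valid] using hf') h
      (t' + k) (t' + k - 2) (by rw [mem_pos_G s hk]; omega) (by rw [mem_pos_G s hk]; omega)
      (by rw [mem_pos_G s hk]; omega) (by rw [mem_pos_G s hk]; omega)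
    omega

end Pool.Agent.WLIter.Low
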