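import Pool.Agent.WLIter.LowC

/-!
# Lower bound, part D: the extension property
-/

namespace Pool.Agent.WLIter.Low

open Finset

variable {I : Type} [DecidableEq I] {k : ℕ} (s : LongSeq I k)

/-- support of a form -/
def sp (s : LongSeq I k) (f : Bool × ℕ) : Finset I := (pos s f).image s.e

/-- value of a form -/
def ev (s : LongSeq I k) (f : Bool × ℕ) (Δ : I → K) : ZMod 2 :=
  ∑ j ∈ range s.len, dot (wt k f j) (Δ (s.e j))

theorem ev_upd (hk : 3 ≤ k) (f : Bool × ℕ) (Δ : I → K) (d : I) (u : K) (j : ℕ)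
    (hj : j ∈ pos s f) (hd : s.e j = d) :
    ev s f (Function.update Δ d u) = ev s f (Function.update Δ d 0) + dot (wt k f j) u := by
  have hjr : j ∈ range s.len := (mem_filter.1 hj).1
  unfold ev
  rw [← Finset.add_sum_erase _ _ hjr, ← Finset.add_sum_erase _ _ hjr, hd, Function.update_self,
    Function.update_self, dot_zero_right, zero_add, add_comm]
  congr 1
  apply Finset.sum_congr rfl
  intro i hi
  obtain ⟨hij, hir⟩ := mem_erase.1 hi
  by_cases hw : wt k f i = 0
  · rw [hw, dot_zero_left, dot_zero_left]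
  · have hip : i ∈ pos s f := mem_filter.2 ⟨hir, hw⟩
    have hne : s.e i ≠ d := by
      intro h
      exact hij (inj_pos s hk f hip hj (h.trans hd.symm))
    rw [Function.update_of_ne hne, Function.update_of_ne hne]

theorem ev_zero_upd (f : Bool × ℕ) (Δ : I → K) (d : I) (hd : d ∉ sp s f) :
    ev s f (Function.update Δ d 0) = ev s f Δ := by
  unfold ev
  apply Finset.sum_congr rfl
  intro i hi
  by_cases hw : wt k f i = 0
  · rw [hw, dot_zero_left, dot_zero_left]
  · have hne : s.e i ≠ d := by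
      rintro rfl
      exact hd (mem_image_of_mem _ (mem_filter.2 ⟨hi, hw⟩))
    rw [Function.update_of_ne hne]

/-- if the weights add up, so do the values -/
theorem ev_add_of (f g h : Bool × ℕ) (H : ∀ i, wt k f i + wt k g i = wt k h i) (Δ : I → K) :
    ev s f Δ + ev s g Δ = ev s h Δ := by
  unfold ev
  rw [← Finset.sum_add_distrib]
  apply Finset.sum_congr rfl
  intro i _
  rw [← H, dot_add_left]

theorem w1 (t i : ℕ) : wt k (false, t) i + wt k (true, t) i = wt k (false, t + 1) i := by
  simp only [wt_F, wt_G, wG]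
  rw [← add_assoc, K_add_self, zero_add]

theorem w2 (t i : ℕ) : wt k (false, t + 1) i + wt k (true, t) i = wt k (false, t) i := by
  simp only [wt_F, wt_G, wG]
  rw [add_comm, add_assoc, K_add_self, add_zero]

theorem w3 (t i : ℕ) : wt k (false, t) i + wt k (false, t + 1) i = wt k (true, t) i := rfl

/-- the third form of a window has its support in `B` -/
theorem sp_third (f g h : Bool × ℕ) (H : ∀ i, wt k f i + wt k g i = wt k h i)
    (t : ℕ) (hf : pos s f ⊆ Icc t (t + k)) (hg : pos s g ⊆ Icc t (t + k)) (B : Finset I) (d : I)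
    (h1 : sp s f ⊆ insert d B) (h2 : sp s g ⊆ insert d B) (j : ℕ) (hj : j ∈ pos s f)
    (hjd : s.e j = d) (hjw : wt k f j = wt k g j) : sp s h ⊆ B := by
  intro a ha
  obtain ⟨i, hi, rfl⟩ := mem_image.1 ha
  obtain ⟨hir, hiw⟩ := mem_filter.1 hi
  have hor : i ∈ pos s f ∨ i ∈ pos s g := by
    by_contra hcon
    rw [not_or] at hcon
    apply hiw
    rw [← H]
    have e1 : wt k f i = 0 := by
      by_contra h; exact hcon.1 (mem_filter.2 ⟨hir, h⟩)
    have e2 : wt k g i = 0 := by
      by_contra h; exact hcon.2 (mem_filter.2 ⟨hir, h⟩)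
    rw [e1, e2, add_zero]
  have hC : s.e i ∈ insert d B := by
    rcases hor with h | h
    · exact h1 (mem_image_of_mem _ h)
    · exact h2 (mem_image_of_mem _ h)
  have hit : i ∈ Icc t (t + k) := by
    rcases hor with h | h
    · exact hf h
    · exact hg h
  rcases mem_insert.1 hC with h | h
  · exfalso
    have hjt := mem_Icc.1 (hf hj)
    rw [mem_Icc] at hit
    have hjl : j < s.len := mem_range.1 (mem_filter.1 hj).1
    have hil : i < s.len := mem_range.1 hir
    have hij : i = j := by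
      rcases Nat.le_total i j with h' | h'
      · exact s.inj i j hil hjl h' (by omega) (h.trans hjd.symm)
      · exact (s.inj j i hjl hil h' (by omega) (hjd.trans h.symm)).symm
    apply hiw
    rw [hij, ← H, hjw, K_add_self]
  · exact h

theorem pos_sub' (hk : 3 ≤ k) (t : ℕ) (f : Bool × ℕ)
    (hf : f = (false, t) ∨ f = (true, t) ∨ f = (false, t + 1)) : pos s f ⊆ Icc t (t + k) := by
  intro j hj
  rw [mem_Icc]
  rcases hf with rfl | rfl | rfl
  · rw [mem_pos_F] at hj; omega
  · rw [mem_pos_G s hk] at hj; omega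
  · rw [mem_pos_F] at hj; omega

theorem bbF_eq (len t t' : ℕ) (h : 2 * t + k ≤ len ↔ 2 * t' + k ≤ len) :
    bb k len (false, t) = bb k len (false, t') := by
  unfold bb
  simp only [Bool.false_eq_true, if_false]
  by_cases h1 : 2 * t + k ≤ len
  · rw [if_pos h1, if_pos (h.1 h1)]
  · rw [if_neg h1, if_neg (fun h2 => h1 (h.2 h2))]

theorem bbG (len t : ℕ) : bb k len (true, t) = 0 := rfl

/-- same functional at the new block: the sum is a known form on the old blocks -/
theorem same (hk : 3 ≤ k) (N : ℕ) (hN : 2 * N + 1 + k < s.len) (r : ℕ) (hr : r < N)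
    (B : Finset I) (hB : B.card ≤ k) (d : I)
    (f g : Bool × ℕ) (hf : f ∈ known k s.len r) (hg : g ∈ known k s.len r)
    (hfC : sp s f ⊆ insert d B) (hgC : sp s g ⊆ insert d B) (j : ℕ) (hjf : j ∈ pos s f)
    (hjg : j ∈ pos s g) (hjd : s.e j = d) (hw : wt k f j = wt k g j) (hne : f ≠ g) :
    ∃ h ∈ known k s.len (r + 1), sp s h ⊆ B ∧ (∀ Δ, ev s f Δ + ev s g Δ = ev s h Δ) ∧
      bb k s.len f + bb k s.len g = bb k s.len h := by
  have hfv := valid_of_known s r f hf
  have hgv := valid_of_known s r g hg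
  have hC : (insert d B).card ≤ k + 1 := (card_insert_le _ _).trans (by omega)
  have hco := (common s hk f g hfv hgv _ hC hfC hgC d (hjd ▸ mem_image_of_mem _ hjf)
    (hjd ▸ mem_image_of_mem _ hjg)).1
  have P : ∀ (h : Bool × ℕ) (t : ℕ), h ∈ known k s.len (r + 1) →
      bb k s.len f + bb k s.len g = bb k s.len h →
      (∀ i, wt k f i + wt k g i = wt k h i) →
      (f = (false, t) ∨ f = (true, t) ∨ f = (false, t + 1)) →
      (g = (false, t) ∨ g = (true, t) ∨ g = (false, t + 1)) →
      ∃ h ∈ known k s.len (r + 1), sp s h ⊆ B ∧ (∀ Δ, ev s f Δ + ev s g Δ = ev s h Δ) ∧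
        bb k s.len f + bb k s.len g = bb k s.len h :=
    fun h t hh hb H h1 h2 => ⟨h, hh, sp_third s f g h H t (pos_sub' s hk t f h1)
      (pos_sub' s hk t g h2) B d hfC hgC j hjf hjd hw, ev_add_of s _ _ _ H, hb⟩
  have hz : ∀ a : ZMod 2, a + a = 0 := by decide
  have hf0 : wt k f j ≠ 0 := (mem_filter.1 hjf).2
  have hg0 : wt k g j ≠ 0 := (mem_filter.1 hjg).2
  obtain ⟨b, t⟩ := f
  obtain ⟨b', t'⟩ := g
  cases b <;> cases b'
  · -- F F
    simp only [known, Set.mem_ofPred_eq, Bool.false_eq_true, if_false] at hf hg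
    have htt : t ≠ t' := fun h => hne (by rw [h])
    rcases Nat.lt_or_ge t t' with h | h
    · obtain rfl := classFF s hk t t' hfv hgv hco h
      refine P (true, t) t ?_ ?_ (w3 t) (by simp) (by simp)
      · simp only [known, Set.mem_ofPred_eq, if_true]; omega
      · rw [bbG, bbF_eq s.len t (t + 1) (by omega), hz]
    · have h' : t' < t := lt_of_le_of_ne h (Ne.symm htt)
      obtain rfl := classFF s hk t' t hgv hfv (by rw [inter_comm]; exact hco) h'
      refine P (true, t') t' ?_ ?_ (fun i => by rw [add_comm]; exact w3 t' i) (by simp) (by simp)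
      · simp only [known, Set.mem_ofPred_eq, if_true]; omega
      · rw [bbG, bbF_eq s.len t' (t' + 1) (by omega), hz]
  · -- F G
    simp only [known, Set.mem_ofPred_eq, Bool.false_eq_true, if_false, if_true] at hf hg
    rcases classFG s hk t t' hfv hgv hco with rfl | rfl | rfl
    · refine P (false, t' + 1) t' ?_ ?_ (w1 t') (by simp) (by simp)
      · simp only [known, Set.mem_ofPred_eq, Bool.false_eq_true, if_false]; omega
      · rw [bbG, add_zero, bbF_eq s.len t' (t' + 1) (by omega)]
    · refine P (false, t') t' ?_ ?_ (w2 t') (by simp) (by simp)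
      · simp only [known, Set.mem_ofPred_eq, Bool.false_eq_true, if_false]; omega
      · rw [bbG, add_zero, bbF_eq s.len t' (t' + 1) (by omega)]
    · exact (special_ne k hk t j hf0 hg0 hw).elim
  · -- G F
    simp only [known, Set.mem_ofPred_eq, Bool.false_eq_true, if_false, if_true] at hf hg
    rcases classFG s hk t' t hgv hfv (by rw [inter_comm]; exact hco) with rfl | rfl | rfl
    · refine P (false, t + 1) t ?_ ?_ (fun i => by rw [add_comm]; exact w1 t i) (by simp) (by simp)
      · simp only [known, Set.mem_ofPred_eq, Bool.false_eq_true, if_false]; omega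
      · rw [bbG, zero_add, bbF_eq s.len t (t + 1) (by omega)]
    · refine P (false, t) t ?_ ?_ (fun i => by rw [add_comm]; exact w2 t i) (by simp) (by simp)
      · simp only [known, Set.mem_ofPred_eq, Bool.false_eq_true, if_false]; omega
      · rw [bbG, zero_add, bbF_eq s.len t (t + 1) (by omega)]
    · exact (special_ne k hk t' j hg0 hf0 hw.symm).elim
  · -- G G
    have htt : t ≠ t' := fun h => hne (by rw [h])
    rcases Nat.lt_or_ge t t' with h | h
    · exact (classGG s hk t t' hfv hgv hco h).elim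
    · exact (classGG s hk t' t hgv hfv (by rw [inter_comm]; exact hco)
        (lt_of_le_of_ne h (Ne.symm htt))).elim

/-- the defect of a form -/
def df (s : LongSeq I k) (f : Bool × ℕ) (Δ : I → K) : ZMod 2 := ev s f Δ + bb k s.len f

/-- three different functionals at the new block: the defects of the three forms add up to zero -/
theorem triple (hk : 3 ≤ k) (N : ℕ) (hN : 2 * N + 1 + k < s.len) (r : ℕ) (hr : r < N)
    (B : Finset I) (hB : B.card ≤ k) (d : I)
    (t t' t'' : ℕ) (hf : (false, t) ∈ known k s.len r) (hg : (false, t') ∈ known k s.len r)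
    (hh : Valid s (true, t''))
    (hfC : sp s (false, t) ⊆ insert d B) (hgC : sp s (false, t') ⊆ insert d B)
    (hhC : sp s (true, t'') ⊆ insert d B) (h1 : d ∈ sp s (false, t)) (h2 : d ∈ sp s (false, t'))
    (h3 : d ∈ sp s (true, t'')) (hne : t ≠ t') (Δ : I → K) :
    df s (false, t) Δ + df s (false, t') Δ + df s (true, t'') Δ = 0 := by
  have hC : (insert d B).card ≤ k + 1 := (card_insert_le _ _).trans (by omega)
  have hz : ∀ a b c : ZMod 2, a + c + (b + c) + (a + b + 0) = 0 := by decide
  -- wlog t < t'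
  have main : ∀ t t', (false, t) ∈ known k s.len r → (false, t') ∈ known k s.len r →
      sp s (false, t) ⊆ insert d B →
      sp s (false, t') ⊆ insert d B → d ∈ sp s (false, t) → d ∈ sp s (false, t') → t < t' →
      df s (false, t) Δ + df s (false, t') Δ + df s (true, t'') Δ = 0 := by
    intro t t' hf hg hfC hgC h1 h2 hlt
    have hfv := valid_of_known s r _ hf
    have hgv := valid_of_known s r _ hg
    obtain rfl := classFF s hk t t' hfv hgv (common s hk _ _ hfv hgv _ hC hfC hgC d h1 h2).1 hlt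
    have c1 := classFG s hk t t'' hfv hh (common s hk _ _ hfv hh _ hC hfC hhC d h1 h3).1
    have c2 := classFG s hk (t + 1) t'' hgv hh (common s hk _ _ hgv hh _ hC hgC hhC d h2 h3).1
    have hcase : t'' = t ∨ t'' = t + 1 := by omega
    rcases hcase with rfl | rfl
    · simp only [known, Set.mem_ofPred_eq, Bool.false_eq_true, if_false] at hf hg
      unfold df
      rw [bbG, ← ev_add_of s _ _ _ (w3 t''), bbF_eq s.len t'' (t'' + 1) (by omega)]
      exact hz _ _ _
    · exfalso
      simp only [Valid, if_true] at hh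
      have hsub : (Icc t (t + k + 1)).image s.e ⊆ insert d B := by
        intro a ha
        obtain ⟨i, hi, rfl⟩ := mem_image.1 ha
        rw [mem_Icc] at hi
        by_cases hi1 : i < t + k
        · exact hfC (mem_image_of_mem _ ((mem_pos_F s t i).2 (by omega)))
        · by_cases hi2 : i < t + 1 + k
          · exact hgC (mem_image_of_mem _ ((mem_pos_F s (t + 1) i).2 (by omega)))
          · exact hhC (mem_image_of_mem _ ((mem_pos_G s hk (t + 1) i).2 (by omega)))
      have h5 := card_le_card hsub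
      rw [card_image_of_injOn, Nat.card_Icc] at h5
      · omega
      · intro i hi j hj hij
        have hi' := mem_Icc.1 hi
        have hj' := mem_Icc.1 hj
        rcases Nat.le_total i j with h | h
        · exact s.inj i j (by omega) (by omega) h (by omega) hij
        · exact (s.inj j i (by omega) (by omega) h (by omega) hij.symm).symm
  rcases Nat.lt_or_ge t t' with h | h
  · exact main t t' hf hg hfC hgC h1 h2 h
  · rw [add_comm (df s (false, t) Δ)]
    exact main t' t hg hf hgC hfC h2 h1 (lt_of_le_of_ne h (Ne.symm hne))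

/-- **The extension property.** -/
theorem ext (hk : 3 ≤ k) (N : ℕ) (hN : 2 * N + 1 + k < s.len) : (sys s).Ext k N := by
  intro r hr B hB Δ hΔ d hd
  have hΔ' : ∀ f ∈ known k s.len (r + 1), sp s f ⊆ B → ev s f Δ = bb k s.len f := hΔ
  let Δ₀ := Function.update Δ d 0
  let P : Set (K × ZMod 2) := {x | ∃ f ∈ known k s.len r, sp s f ⊆ insert d B ∧
    ∃ j ∈ pos s f, s.e j = d ∧ x = (wt k f j, df s f Δ₀)}
  have hC : (insert d B).card ≤ k + 1 := (card_insert_le _ _).trans (by omega)
  have hz : ∀ a b c d e : ZMod 2, a + b = e → c + d = e → a + c = b + d := by decide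
  have hz' : ∀ a b : ZMod 2, a + (a + b) = b := by decide
  -- common position
  have hpos : ∀ f g, f ∈ known k s.len r → g ∈ known k s.len r → sp s f ⊆ insert d B →
      sp s g ⊆ insert d B → ∀ j ∈ pos s f, ∀ j' ∈ pos s g, s.e j = d → s.e j' = d → j = j' := by
    intro f g hf hg hfC hgC j hj j' hj' hjd hjd'
    obtain ⟨_, i, h1, h2, h3⟩ := common s hk f g (valid_of_known s r f hf)
      (valid_of_known s r g hg) _ hC hfC hgC d (hjd ▸ mem_image_of_mem _ hj)
      (hjd' ▸ mem_image_of_mem _ hj')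
    have e1 : j = i := inj_pos s hk f hj h1 (hjd.trans h3.symm)
    have e2 : j' = i := inj_pos s hk g hj' h2 (hjd'.trans h3.symm)
    rw [e1, e2]
  have P0 : ∀ x ∈ P, x.1 ≠ 0 := by
    rintro _ ⟨f, hf, hfC, j, hj, hjd, rfl⟩
    exact (mem_filter.1 hj).2
  have P1 : ∀ x ∈ P, ∀ y ∈ P, x.1 = y.1 → x.2 = y.2 := by
    rintro _ ⟨f, hf, hfC, j, hj, hjd, rfl⟩ _ ⟨g, hg, hgC, j', hj', hjd', rfl⟩ hw
    obtain rfl := hpos f g hf hg hfC hgC j hj j' hj' hjd hjd'
    simp only at hw ⊢
    by_cases hne : f = g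
    · rw [hne]
    obtain ⟨h, hh, hhB, hev, hbb⟩ := same s hk N hN r hr B hB d f g hf hg hfC hgC j hj hj' hjd hw
      hne
    refine hz _ _ _ _ (bb k s.len h) ?_ hbb
    rw [hev, ev_zero_upd s h Δ d (fun h' => hd (hhB h'))]
    exact hΔ' h hh hhB
  have P2 : ∀ x ∈ P, ∀ y ∈ P, ∀ z ∈ P, x.1 ≠ y.1 → y.1 ≠ z.1 → x.1 ≠ z.1 →
      x.2 + y.2 + z.2 = 0 := by
    rintro _ ⟨f, hf, hfC, j, hj, hjd, rfl⟩ _ ⟨g, hg, hgC, j', hj', hjd', rfl⟩
      _ ⟨h, hh, hhC, j'', hj'', hjd'', rfl⟩ h12 h23 h13
    obtain rfl := hpos f g hf hg hfC hgC j hj j' hj' hjd hjd'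
    obtain rfl := hpos f h hf hh hfC hhC j hj j'' hj'' hjd hjd''
    simp only at h12 h23 h13 ⊢
    have hfv := valid_of_known s r f hf
    have hgv := valid_of_known s r g hg
    have hhv := valid_of_known s r h hh
    have d1 : d ∈ sp s f := hjd ▸ mem_image_of_mem _ hj
    have d2 : d ∈ sp s g := hjd ▸ mem_image_of_mem _ hj'
    have d3 : d ∈ sp s h := hjd ▸ mem_image_of_mem _ hj''
    have cFF : ∀ t t', Valid s (false, t) → Valid s (false, t') → sp s (false, t) ⊆ insert d B →
      sp s (false, t') ⊆ insert d B → d ∈ sp s (false, t) → d ∈ sp s (false, t') → t < t' →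
      t' = t + 1 := fun t t' a1 a2 a3 a4 a5 a6 a7 =>
        classFF s hk t t' a1 a2 (common s hk _ _ a1 a2 _ hC a3 a4 d a5 a6).1 a7
    have cGG : ∀ t t', Valid s (true, t) → Valid s (true, t') → sp s (true, t) ⊆ insert d B →
      sp s (true, t') ⊆ insert d B → d ∈ sp s (true, t) → d ∈ sp s (true, t') → t ≠ t' →
      False := by
      intro t t' a1 a2 a3 a4 a5 a6 a7
      rcases Nat.lt_or_ge t t' with h | h
      · exact classGG s hk t t' a1 a2 (common s hk _ _ a1 a2 _ hC a3 a4 d a5 a6).1 h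
      · exact classGG s hk t' t a2 a1 (common s hk _ _ a2 a1 _ hC a4 a3 d a6 a5).1
          (lt_of_le_of_ne h (Ne.symm a7))
    obtain ⟨b1, t1⟩ := f
    obtain ⟨b2, t2⟩ := g
    obtain ⟨b3, t3⟩ := h
    have n12 : (b1, t1) ≠ (b2, t2) := fun h => h12 (by rw [h])
    have n23 : (b2, t2) ≠ (b3, t3) := fun h => h23 (by rw [h])
    have n13 : (b1, t1) ≠ (b3, t3) := fun h => h13 (by rw [h])
    cases b1 <;> cases b2 <;> cases b3
    · exfalso
      have m12 : t1 ≠ t2 := fun h => n12 (by rw [h])
      have m23 : t2 ≠ t3 := fun h => n23 (by rw [h])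
      have m13 : t1 ≠ t3 := fun h => n13 (by rw [h])
      have q12 := cFF t1 t2 hfv hgv hfC hgC d1 d2
      have q21 := cFF t2 t1 hgv hfv hgC hfC d2 d1
      have q23 := cFF t2 t3 hgv hhv hgC hhC d2 d3
      have q32 := cFF t3 t2 hhv hgv hhC hgC d3 d2
      have q13 := cFF t1 t3 hfv hhv hfC hhC d1 d3
      have q31 := cFF t3 t1 hhv hfv hhC hfC d3 d1
      omega
    · exact triple s hk N hN r hr B hB d t1 t2 t3 hf hg hhv hfC hgC hhC d1 d2 d3
        (fun h => n12 (by rw [h])) Δ₀
    · rw [add_assoc, add_comm (df s (true, t2) Δ₀), ← add_assoc]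
      exact triple s hk N hN r hr B hB d t1 t3 t2 hf hh hgv hfC hhC hgC d1 d3 d2
        (fun h => n13 (by rw [h])) Δ₀
    · exact (cGG t2 t3 hgv hhv hgC hhC d2 d3 (fun h => n23 (by rw [h]))).elim
    · rw [add_comm (df s (true, t1) Δ₀), add_assoc, add_comm (df s (true, t1) Δ₀), ← add_assoc]
      exact triple s hk N hN r hr B hB d t2 t3 t1 hg hh hfv hgC hhC hfC d2 d3 d1
        (fun h => n23 (by rw [h])) Δ₀
    · exact (cGG t1 t3 hfv hhv hfC hhC d1 d3 (fun h => n13 (by rw [h]))).elim
    · exact (cGG t1 t2 hfv hgv hfC hgC d1 d2 (fun h => n12 (by rw [h]))).elim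
    · exact (cGG t1 t2 hfv hgv hfC hgC d1 d2 (fun h => n12 (by rw [h]))).elim
  obtain ⟨u, hu⟩ := solvable P P0 P1 P2
  refine ⟨u, fun f hf hdf hfC => ?_⟩
  obtain ⟨j, hj, hjd⟩ := mem_image.1 hdf
  have h1 := hu (wt k f j, df s f Δ₀) ⟨f, hf, hfC, j, hj, hjd, rfl⟩
  change ev s f (Function.update Δ d u) = bb k s.len f
  rw [ev_upd s hk f Δ d u j hj hjd, h1]
  exact hz' _ _

end Pool.Agent.WLIter.Low
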