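import Pool.Agent.WLIter.LowD

/-!
# Lower bound, part E: one window per round
-/

namespace Pool.Agent.WLIter.Low

open Finset

variable {I : Type} [Fintype I] [DecidableEq I] {k : ℕ} (s : LongSeq I k)

/-- the colours of round `1` determine the relation given by the initial forms -/
def Det {α : Type} (c₀ c₁ : (Fin k → I × K) → α) : Prop :=
  ∀ x y, wl c₀ 1 x = wl c₁ 1 y → (sys s).Rel 0 x y

variable {α : Type} (c₀ c₁ : (Fin k → I × K) → α)

theorem rel_of_wl (hd : Det s c₀ c₁) (r : ℕ) (x y : Fin k → I × K)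
    (h : wl c₀ (r + 1) x = wl c₁ (r + 1) y) : (sys s).Rel 0 x y :=
  hd x y (wl_of_le _ _ (by omega) x y h)

/-- the initial forms on the difference of indistinguishable tuples -/
theorem ev_zero_of_wl (hd : Det s c₀ c₁) (f : Bool × ℕ) (hf : f ∈ known k s.len 0) (r : ℕ)
    (x y : Fin k → I × K) (Δ : I → K) (hΔ : ∀ j, y j = T Δ (x j))
    (hs : sp s f ⊆ Sys.blocks x) (h : wl c₀ (r + 1) x = wl c₁ (r + 1) y) :
    ev s f Δ = bb k s.len f := by
  obtain ⟨Δ', h1, h2⟩ := rel_of_wl s c₀ c₁ hd r x y h
  have h3 : ev s f Δ' = bb k s.len f := h2 f hf hs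
  rw [← h3]
  apply (sys s).ev_congr f
  intro a ha
  obtain ⟨j, _, rfl⟩ := mem_image.1 (hs ha)
  have h4 := (hΔ j).symm.trans (h1 j)
  unfold T at h4
  exact add_left_cancel (Prod.ext_iff.1 h4).2

omit [Fintype I] in
theorem image_sub_blocks_update (x : Fin k → I × K) (i : Fin k) (w : I × K) (P : Finset ℕ)
    (r : ℕ) (hw : w.1 = s.e r)
    (h : ∀ j ∈ P, j = r ∨ (s.e j ∈ Sys.blocks x ∧ s.e j ≠ (x i).1)) :
    P.image s.e ⊆ Sys.blocks (Function.update x i w) := by
  intro a ha
  obtain ⟨j, hj, rfl⟩ := mem_image.1 ha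
  rcases h j hj with rfl | ⟨h1, h2⟩
  · rw [← hw]
    refine mem_image.2 ⟨i, mem_univ _, ?_⟩
    rw [Function.update_self]
  · obtain ⟨j', _, hj'⟩ := mem_image.1 h1
    refine mem_image.2 ⟨j', mem_univ _, ?_⟩
    rw [Function.update_of_ne, hj']
    rintro rfl
    exact h2 hj'.symm

/-- **One window per round.** -/
theorem ev_of_wl (hd : Det s c₀ c₁) (hk : 3 ≤ k) (r : ℕ) : r + k ≤ s.len → ∀ (x y : Fin k → I × K) (Δ : I → K),
    (∀ j, y j = T Δ (x j)) → sp s (false, r) ⊆ Sys.blocks x →
    wl c₀ (r + 1) x = wl c₁ (r + 1) y → ev s (false, r) Δ = 0 := by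
  induction r with
  | zero =>
    intro hr x y Δ hΔ hs h
    rw [ev_zero_of_wl s c₀ c₁ hd (false, 0) ?_ 0 x y Δ hΔ hs h]
    · unfold bb
      rw [if_neg (by simp), if_pos (by simp only; omega)]
    · simp only [known, Set.mem_ofPred_eq, Bool.false_eq_true, if_false]
      omega
  | succ r ih =>
    intro hr x y Δ hΔ hs h
    rw [wl_succ_iff] at h
    obtain ⟨_, E, hE⟩ := h
    have hin : ∀ j, r + 1 ≤ j → j ≤ r + k → s.e j ∈ Sys.blocks x := fun j h1 h2 =>
      hs (mem_image_of_mem _ ((mem_pos_F s _ _).2 (by omega)))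
    obtain ⟨i1, _, hi1⟩ := mem_image.1 (hin (r + k) (by omega) (by omega))
    obtain ⟨i2, _, hi2⟩ := mem_image.1 (hin (r + k - 1) (by omega) (by omega))
    have hne : ∀ i j, r ≤ i → i < j → j ≤ r + k → s.e i ≠ s.e j := fun i j h1 h2 h3 h4 => by
      have := s.inj i j (by omega) (by omega) (by omega) (by omega) h4
      omega
    -- the blocks of `x` are those of the window
    have hblocks : Sys.blocks x = sp s (false, r + 1) := by
      symm
      apply eq_of_subset_of_card_le hs
      refine (Sys.card_blocks_le x).trans ?_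
      unfold sp
      rw [card_image_of_injOn (inj_pos s hk _), card_pos s hk _]
      simp only [Valid, Bool.false_eq_true, if_false]
      omega
    have hrn : s.e r ∉ Sys.blocks x := by
      rw [hblocks]
      intro h
      obtain ⟨j, hj, hj'⟩ := mem_image.1 h
      rw [mem_pos_F] at hj
      exact hne r j le_rfl (by omega) (by omega) hj'.symm
    set w : I × K := (s.e r, 0) with hw
    -- the partner of `w` is in the same block
    have hEw : (E w).1 = s.e r := by
      obtain ⟨Δ'', h1, _⟩ := rel_of_wl s c₀ c₁ hd r _ _ (hE w i1)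
      have h2 := h1 i1
      rw [Function.update_self, Function.update_self] at h2
      rw [h2]
      rfl
    let Δ' := Function.update Δ (s.e r) (E w).2
    have hup : ∀ i, ∀ j, Function.update y i (E w) j = T Δ' (Function.update x i w j) := by
      intro i j
      by_cases hj : j = i
      · subst hj
        rw [Function.update_self, Function.update_self]
        unfold T
        simp only [Δ', hw, Function.update_self, zero_add]
        exact Prod.ext hEw rfl
      · rw [Function.update_of_ne hj, Function.update_of_ne hj, hΔ j]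
        unfold T
        have : (x j).1 ≠ s.e r := fun h => hrn (h ▸ Sys.mem_blocks x j)
        simp only [Δ']
        rw [Function.update_of_ne this]
    have e1 : ev s (false, r) Δ' = 0 := by
      refine ih (by omega) _ _ Δ' (hup i1) ?_ (hE w i1)
      refine image_sub_blocks_update s x i1 w _ r rfl ?_
      intro j hj
      rw [mem_pos_F] at hj
      by_cases hjr : j = r
      · exact Or.inl hjr
      · refine Or.inr ⟨hin j (by omega) (by omega), ?_⟩
        rw [hi1]
        exact hne j (r + k) (by omega) (by omega) le_rfl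
    have e2 : ev s (true, r) Δ' = 0 := by
      refine ev_zero_of_wl s c₀ c₁ hd (true, r) ?_ r _ _ Δ' (hup i2) ?_ (hE w i2)
      · simp only [known, Set.mem_ofPred_eq, if_true]
        omega
      · refine image_sub_blocks_update s x i2 w _ r rfl ?_
        intro j hj
        rw [mem_pos_G s hk] at hj
        by_cases hjr : j = r
        · exact Or.inl hjr
        · refine Or.inr ⟨hin j (by omega) (by omega), ?_⟩
          rw [hi2]
          rcases Nat.lt_or_ge j (r + k - 1) with h' | h'
          · exact hne j (r + k - 1) (by omega) h' (by omega)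
          · have : j = r + k := by omega
            subst this
            exact (hne (r + k - 1) (r + k) (by omega) (by omega) le_rfl).symm
    have e3 := ev_add_of s _ _ _ (w1 r) Δ'
    rw [e1, e2, add_zero] at e3
    rw [e3]
    apply (sys s).ev_congr (false, r + 1)
    intro a ha
    simp only [Δ']
    rw [Function.update_of_ne]
    rintro rfl
    exact hrn (hs ha)

/-- **The two structures are distinguished in the end.** -/
theorem multiset_ne (hd : Det s c₀ c₁) (hk : 3 ≤ k) (N : ℕ) (hN : 2 * N + 1 + k < s.len) :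
    wlMultiset c₀ (s.len - k + 1) ≠ wlMultiset c₁ (s.len - k + 1) := by
  intro h
  obtain ⟨E, hE⟩ := exists_equiv_of_map_eq _ _ h
  set r := s.len - k with hr
  let x : Fin k → I × K := fun j => (s.e (r + j), 0)
  have hbl : Sys.blocks x = sp s (false, r) := by
    ext a
    unfold sp Sys.blocks
    rw [mem_image, mem_image]
    constructor
    · rintro ⟨j, _, rfl⟩
      exact ⟨r + j, (mem_pos_F s _ _).2 (by have := j.2; omega), rfl⟩
    · rintro ⟨j, hj, rfl⟩
      rw [mem_pos_F] at hj
      refine ⟨⟨j - r, by omega⟩, mem_univ _, ?_⟩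
      simp only [x]
      congr 1
      omega
  have h1 := hE x
  obtain ⟨Δ, hΔ, _⟩ := rel_of_wl s c₀ c₁ hd r x (E x) h1
  have h2 := ev_of_wl s c₀ c₁ hd hk r (by omega) x (E x) Δ hΔ (hbl ▸ subset_rfl) h1
  have h3 := ev_zero_of_wl s c₀ c₁ hd (false, r) (by
    simp only [known, Set.mem_ofPred_eq, Bool.false_eq_true, if_false]
    omega) r x (E x) Δ hΔ (hbl ▸ subset_rfl) h1
  rw [h2] at h3
  unfold bb at h3
  rw [if_neg (by simp), if_neg (by simp only; omega)] at h3
  exact absurd h3 (by decide)

omit [Fintype I] in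
theorem supp_nonempty (hk : 3 ≤ k) (r : ℕ) : ∀ f ∈ (sys s).L r, ((sys s).supp f).Nonempty := by
  intro f hf
  have h1 := card_pos s hk f (valid_of_known s r f hf)
  have h2 : (pos s f).Nonempty := by rw [← Finset.card_pos]; omega
  exact h2.image _

/-- **but not in the first `N - k` rounds.** -/
theorem multiset_eq' (hc : (sys s).Compat c₀ c₁) (hk : 3 ≤ k) (N : ℕ) (hN : 2 * N + 1 + k < s.len)
    (r : ℕ) (hr : r + k ≤ N) : wlMultiset c₀ r = wlMultiset c₁ r :=
  (sys s).multiset_eq c₀ c₁ hc N (ext s hk N hN) (supp_nonempty s hk) r hr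

end Pool.Agent.WLIter.Low
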