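import Pool.Agent.WLIter.LowE

/-!
# Lower bound, part F: a long sequence
-/

namespace Pool.Agent.WLIter.Low

open Finset

/-- `p`-adic polynomial of a number -/
def dig (k p : ℕ) (b : ℕ) (x : ZMod p) : ZMod p :=
  ∑ j ∈ range (k - 1), ((b / p ^ j : ℕ) : ZMod p) * x ^ j

/-- truncated valuation -/
def kap (k p : ℕ) (b : ℕ) : ℕ := ((range (k - 1)).filter fun j => p ^ j ∣ b).card

theorem kap_le (k p b : ℕ) : kap k p b ≤ k - 1 :=
  (card_filter_le _ _).trans (by rw [card_range])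

theorem filter_eq_range (p b : ℕ) (n : ℕ) : ((range n).filter fun j => p ^ j ∣ b) =
    range ((range n).filter fun j => p ^ j ∣ b).card := by
  induction n with
  | zero => simp
  | succ n ih =>
    by_cases h : p ^ n ∣ b
    · have : ((range (n + 1)).filter fun j => p ^ j ∣ b) = range (n + 1) := by
        apply filter_true_of_mem
        intro j hj
        rw [mem_range] at hj
        exact (pow_dvd_pow p (by omega)).trans h
      rw [this, card_range]
    · have : ((range (n + 1)).filter fun j => p ^ j ∣ b) =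
          ((range n).filter fun j => p ^ j ∣ b) := by
        rw [range_add_one, filter_insert, if_neg h]
      rw [this]
      exact ih

/-- carrying -/
theorem dig_succ (k p : ℕ) (b : ℕ) (x : ZMod p) :
    dig k p (b + 1) x = dig k p b x + ∑ j ∈ range (kap k p (b + 1)), x ^ j := by
  unfold dig kap
  rw [← filter_eq_range, sum_filter, ← sum_add_distrib]
  apply sum_congr rfl
  intro j _
  rw [Nat.succ_div]
  split_ifs with h
  · push_cast; ring
  · simp

/-- digits determine the number -/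
theorem mod_pow_eq (p b b' : ℕ) (n : ℕ)
    (h : ∀ j < n, b / p ^ j % p = b' / p ^ j % p) : b % p ^ n = b' % p ^ n := by
  induction n with
  | zero => simp [Nat.mod_one]
  | succ n ih =>
    rw [Nat.mod_pow_succ, Nat.mod_pow_succ, ih (fun j hj => h j (by omega)), h n (by omega)]

/-- **Decoding.** -/
theorem decode (k p : ℕ) [hp : Fact p.Prime] (hpk : 2 * (k + 1) ≤ p) (b b' : ℕ)
    (hb : b < p ^ (k - 1)) (hb' : b' < p ^ (k - 1)) (R : Finset ℕ)
    (hR : ∀ ρ ∈ R, ρ < 2 * (k + 1)) (hcard : R.card = k - 1)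
    (h : ∀ ρ ∈ R, dig k p b (ρ : ZMod p) = dig k p b' (ρ : ZMod p)) : b = b' := by
  classical
  let P : ℕ → Polynomial (ZMod p) := fun b =>
    ∑ j ∈ range (k - 1), Polynomial.C ((b / p ^ j : ℕ) : ZMod p) * Polynomial.X ^ j
  have hdeg : ∀ b, (P b).degree < (k - 1 : ℕ) := by
    intro b
    refine (Polynomial.degree_sum_le _ _).trans_lt ?_
    rw [Finset.sup_lt_iff (by exact_mod_cast WithBot.bot_lt_coe _)]
    intro j hj
    rw [mem_range] at hj
    refine (Polynomial.degree_C_mul_X_pow_le _ _).trans_lt ?_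
    exact_mod_cast hj
  have heval : ∀ b x, (P b).eval x = dig k p b x := by
    intro b x
    simp [P, dig, Polynomial.eval_finsetSum]
  have hinj : Set.InjOn (fun ρ : ℕ => (ρ : ZMod p)) (R : Set ℕ) := by
    intro i hi j hj hij
    have hi' := hR i hi
    have hj' := hR j hj
    have := (ZMod.natCast_eq_natCast_iff' i j p).1 hij
    rwa [Nat.mod_eq_of_lt (by omega), Nat.mod_eq_of_lt (by omega)] at this
  have hPP : P b = P b' := by
    apply Polynomial.eq_of_degree_sub_lt_of_eval_finset_eq (R.image fun ρ : ℕ => (ρ : ZMod p))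
    · rw [card_image_of_injOn hinj, hcard]
      exact (Polynomial.degree_sub_le _ _).trans_lt (max_lt (hdeg b) (hdeg b'))
    · intro x hx
      obtain ⟨ρ, hρ, rfl⟩ := mem_image.1 hx
      rw [heval, heval]
      exact h ρ hρ
  have hcoef : ∀ b, ∀ j < k - 1, (P b).coeff j = ((b / p ^ j : ℕ) : ZMod p) := by
    intro b j hj
    simp only [P, Polynomial.finsetSum_coeff, Polynomial.coeff_C_mul, Polynomial.coeff_X_pow]
    rw [sum_eq_single j]
    · simp
    · intro i _ hij
      simp [Ne.symm hij]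
    · intro hj'
      exact absurd (mem_range.2 hj) hj'
  have hmod := mod_pow_eq p b b' (k - 1) (fun j hj => by
    rw [← ZMod.natCast_eq_natCast_iff', ← hcoef b j hj, ← hcoef b' j hj, hPP])
  rwa [Nat.mod_eq_of_lt hb, Nat.mod_eq_of_lt hb'] at hmod

/-- nearest boundary -/
def near (k i : ℕ) : ℕ :=
  if i % (2 * (k + 1)) < k + 1 then i / (2 * (k + 1)) else i / (2 * (k + 1)) + 1

/-- the blocks -/
abbrev Ix (k p : ℕ) : Type := Fin (2 * (k + 1)) × Fin (k - 1 + 1) × ZMod p

/-- the sequence -/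
def seqE (k p : ℕ) (i : ℕ) : Ix k p :=
  (⟨i % (2 * (k + 1)), Nat.mod_lt _ (by omega)⟩,
    ⟨kap k p (near k i), Nat.lt_succ_of_le (kap_le _ _ _)⟩,
    dig k p (i / (2 * (k + 1))) ((i % (2 * (k + 1)) : ℕ) : ZMod p))

section seq

variable {k p : ℕ}

theorem seqE_mod {i i' : ℕ} (h : seqE k p i = seqE k p i') :
    i % (2 * (k + 1)) = i' % (2 * (k + 1)) := by
  have := congrArg (fun a : Ix k p => (a.1 : ℕ)) h
  exact this

theorem seqE_kap {i i' : ℕ} (h : seqE k p i = seqE k p i') :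
    kap k p (near k i) = kap k p (near k i') := by
  have := congrArg (fun a : Ix k p => (a.2.1 : ℕ)) h
  exact this

theorem seqE_dig {i i' : ℕ} (h : seqE k p i = seqE k p i') :
    dig k p (i / (2 * (k + 1))) ((i % (2 * (k + 1)) : ℕ) : ZMod p) =
      dig k p (i' / (2 * (k + 1))) ((i' % (2 * (k + 1)) : ℕ) : ZMod p) := by
  have := congrArg (fun a : Ix k p => a.2.2) h
  exact this

/-- the value at the nearest boundary -/
theorem dig_near (i : ℕ) (x : ZMod p) : dig k p (near k i) x =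
    dig k p (i / (2 * (k + 1))) x +
      (if i % (2 * (k + 1)) < k + 1 then 0 else ∑ j ∈ range (kap k p (near k i)), x ^ j) := by
  by_cases h : i % (2 * (k + 1)) < k + 1
  · rw [if_pos h, add_zero]
    unfold near
    rw [if_pos h]
  · rw [if_neg h]
    have : near k i = i / (2 * (k + 1)) + 1 := by unfold near; rw [if_neg h]
    rw [this, dig_succ]

theorem seqE_near {i i' : ℕ} (h : seqE k p i = seqE k p i') :
    dig k p (near k i) ((i % (2 * (k + 1)) : ℕ) : ZMod p) =
      dig k p (near k i') ((i' % (2 * (k + 1)) : ℕ) : ZMod p) := by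
  rw [dig_near, dig_near, seqE_dig h, seqE_mod h, seqE_kap h]

theorem eq_of_div_mod {i i' m : ℕ} (h1 : i / m = i' / m) (h2 : i % m = i' % m) : i = i' := by
  rw [← Nat.div_add_mod i m, ← Nat.div_add_mod i' m, h1, h2]

theorem eq_of_near {i i' : ℕ} (h1 : near k i = near k i')
    (h2 : i % (2 * (k + 1)) = i' % (2 * (k + 1))) : i = i' := by
  refine eq_of_div_mod ?_ h2
  unfold near at h1
  rw [h2] at h1
  split_ifs at h1 <;> omega

/-- the core of the uniqueness proof -/
theorem core [hp : Fact p.Prime] (hk : 3 ≤ k) (hpk : 2 * (k + 1) ≤ p) (β : ℕ → ℕ)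
    (hβ1 : ∀ i i', seqE k p i = seqE k p i' →
      dig k p (β i) ((i % (2 * (k + 1)) : ℕ) : ZMod p) =
        dig k p (β i') ((i' % (2 * (k + 1)) : ℕ) : ZMod p))
    (hβ2 : ∀ i i', β i = β i' → i % (2 * (k + 1)) = i' % (2 * (k + 1)) → i = i')
    (A A' : Finset ℕ) (hA : A.card = k - 1) (hA' : A'.card = k - 1)
    (himg : A.image (seqE k p) = A'.image (seqE k p)) (b b' : ℕ) (hb : b < p ^ (k - 1))
    (hb' : b' < p ^ (k - 1)) (h : ∀ i ∈ A, β i = b) (h' : ∀ i ∈ A', β i = b') : A = A' := by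
  have hR : (A.image fun i => i % (2 * (k + 1))).card = k - 1 := by
    rw [card_image_of_injOn, hA]
    intro i hi j hj hij
    exact hβ2 i j ((h i hi).trans (h j hj).symm) hij
  have hbb : b = b' := by
    apply decode k p hpk b b' hb hb' (A.image fun i => i % (2 * (k + 1))) _ hR
    · intro ρ hρ
      obtain ⟨i, hi, rfl⟩ := mem_image.1 hρ
      obtain ⟨i', hi', hii⟩ := mem_image.1 (himg ▸ mem_image_of_mem (seqE k p) hi)
      have := hβ1 i i' hii.symm
      rw [h i hi, h' i' hi', ← seqE_mod hii.symm] at this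
      exact this
    · intro ρ hρ
      obtain ⟨i, hi, rfl⟩ := mem_image.1 hρ
      exact Nat.mod_lt _ (by omega)
  apply eq_of_subset_of_card_le _ (by rw [hA, hA'])
  intro i hi
  obtain ⟨i', hi', hii⟩ := mem_image.1 (himg ▸ mem_image_of_mem (seqE k p) hi)
  have : i = i' := hβ2 i i' (by rw [h i hi, h' i' hi', hbb]) (seqE_mod hii.symm)
  rwa [this]

theorem mul_gap {m a b : ℕ} (h : a < b) : m * a + m ≤ m * b := by
  calc m * a + m = m * (a + 1) := by ring
    _ ≤ m * b := Nat.mul_le_mul_left m h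

/-- a window that meets two rows has a single nearest boundary -/
theorem near_of_cross (t : ℕ) (A : Finset ℕ) (hA : A ⊆ Icc t (t + k)) (i₀ j₀ : ℕ) (hi₀ : i₀ ∈ A)
    (hj₀ : j₀ ∈ A) (h : i₀ / (2 * (k + 1)) < j₀ / (2 * (k + 1))) :
    ∀ i ∈ A, near k i = j₀ / (2 * (k + 1)) := by
  intro i hi
  have e1 := mem_Icc.1 (hA hi₀)
  have e2 := mem_Icc.1 (hA hj₀)
  have e3 := mem_Icc.1 (hA hi)
  have d1 := Nat.div_add_mod i₀ (2 * (k + 1))
  have d2 := Nat.div_add_mod j₀ (2 * (k + 1))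
  have d3 := Nat.div_add_mod i (2 * (k + 1))
  have m1 : i₀ % (2 * (k + 1)) < 2 * (k + 1) := Nat.mod_lt _ (by omega)
  have m2 : j₀ % (2 * (k + 1)) < 2 * (k + 1) := Nat.mod_lt _ (by omega)
  have m3 : i % (2 * (k + 1)) < 2 * (k + 1) := Nat.mod_lt _ (by omega)
  have g1 := mul_gap (m := 2 * (k + 1)) h
  unfold near
  rcases lt_trichotomy (i / (2 * (k + 1))) (j₀ / (2 * (k + 1))) with hlt | heq | hgt
  · have g2 := mul_gap (m := 2 * (k + 1)) hlt
    have hge : i₀ / (2 * (k + 1)) ≤ i / (2 * (k + 1)) := by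
      by_contra hcon
      rw [not_le] at hcon
      have g3 := mul_gap (m := 2 * (k + 1)) hcon
      omega
    have hle : j₀ / (2 * (k + 1)) ≤ i / (2 * (k + 1)) + 1 := by
      by_contra hcon
      rw [not_le] at hcon
      have g3 := mul_gap (m := 2 * (k + 1)) hcon
      rw [mul_add] at g3
      omega
    rw [if_neg]
    · omega
    · omega
  · rw [if_pos, heq]
    rw [heq] at d3
    omega
  · exfalso
    have g2 := mul_gap (m := 2 * (k + 1)) hgt
    omega

/-- crossing is visible in the residues -/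
theorem cross_transfer (t t' : ℕ) (A A' : Finset ℕ) (hA : A ⊆ Icc t (t + k))
    (hA' : A' ⊆ Icc t' (t' + k)) (himg : A.image (seqE k p) = A'.image (seqE k p))
    (i₀ j₀ : ℕ) (hi₀ : i₀ ∈ A) (hj₀ : j₀ ∈ A) (h : i₀ / (2 * (k + 1)) < j₀ / (2 * (k + 1))) :
    ∃ i₁ ∈ A', ∃ j₁ ∈ A', i₁ / (2 * (k + 1)) < j₁ / (2 * (k + 1)) := by
  obtain ⟨i₁, hi₁, hii⟩ := mem_image.1 (himg ▸ mem_image_of_mem (seqE k p) hi₀)
  obtain ⟨j₁, hj₁, hjj⟩ := mem_image.1 (himg ▸ mem_image_of_mem (seqE k p) hj₀)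
  have r1 := seqE_mod hii
  have r2 := seqE_mod hjj
  have e1 := mem_Icc.1 (hA hi₀)
  have e2 := mem_Icc.1 (hA hj₀)
  have e3 := mem_Icc.1 (hA' hi₁)
  have e4 := mem_Icc.1 (hA' hj₁)
  have d1 := Nat.div_add_mod i₀ (2 * (k + 1))
  have d2 := Nat.div_add_mod j₀ (2 * (k + 1))
  have d3 := Nat.div_add_mod i₁ (2 * (k + 1))
  have d4 := Nat.div_add_mod j₁ (2 * (k + 1))
  have g1 := mul_gap (m := 2 * (k + 1)) h
  rcases lt_trichotomy (i₁ / (2 * (k + 1))) (j₁ / (2 * (k + 1))) with hlt | heq | hgt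
  · exact ⟨i₁, hi₁, j₁, hj₁, hlt⟩
  · exfalso
    rw [heq] at d3
    omega
  · exact ⟨j₁, hj₁, i₁, hi₁, hgt⟩

theorem row_lt (i : ℕ) (h : i < 2 * (k + 1) * p ^ (k - 1)) :
    i / (2 * (k + 1)) < p ^ (k - 1) := by
  rwa [Nat.div_lt_iff_lt_mul (by omega), mul_comm]

/-- **The sequence.** -/
def longSeq [hp : Fact p.Prime] (hk : 3 ≤ k) (hpk : 2 * (k + 1) ≤ p) : LongSeq (Ix k p) k where
  e := seqE k p
  len := 2 * (k + 1) * p ^ (k - 1)
  inj := by
    intro i j _ _ hij hji h
    have r := seqE_mod h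
    have d1 := Nat.div_add_mod i (2 * (k + 1))
    have d2 := Nat.div_add_mod j (2 * (k + 1))
    rcases lt_trichotomy (i / (2 * (k + 1))) (j / (2 * (k + 1))) with hlt | heq | hgt
    · have := mul_gap (m := 2 * (k + 1)) hlt
      omega
    · exact eq_of_div_mod heq r
    · have := mul_gap (m := 2 * (k + 1)) hgt
      omega
  uniq := by
    intro A A' t t' hA hA' hlA hlA' hcA hcA' himg
    have hne : A.Nonempty := by rw [← Finset.card_pos]; omega
    have hne' : A'.Nonempty := by rw [← Finset.card_pos]; omega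
    by_cases hc : ∃ i₀ ∈ A, ∃ j₀ ∈ A, i₀ / (2 * (k + 1)) < j₀ / (2 * (k + 1))
    · obtain ⟨i₀, hi₀, j₀, hj₀, h⟩ := hc
      obtain ⟨i₁, hi₁, j₁, hj₁, h'⟩ := cross_transfer t t' A A' hA hA' himg i₀ j₀ hi₀ hj₀ h
      exact core hk hpk (near k) (fun i i' h => seqE_near h) (fun i i' h1 h2 => eq_of_near h1 h2)
        A A' hcA hcA' himg _ _ (row_lt j₀ (hlA j₀ hj₀)) (row_lt j₁ (hlA' j₁ hj₁))
        (near_of_cross t A hA i₀ j₀ hi₀ hj₀ h) (near_of_cross t' A' hA' i₁ j₁ hi₁ hj₁ h')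
    · have hc' : ¬ ∃ i₀ ∈ A', ∃ j₀ ∈ A', i₀ / (2 * (k + 1)) < j₀ / (2 * (k + 1)) := by
        rintro ⟨i₁, hi₁, j₁, hj₁, h'⟩
        exact hc (cross_transfer t' t A' A hA' hA himg.symm i₁ j₁ hi₁ hj₁ h')
      push Not at hc hc'
      obtain ⟨a, ha⟩ := hne
      obtain ⟨a', ha'⟩ := hne'
      exact core hk hpk (fun i => i / (2 * (k + 1))) (fun i i' h => seqE_dig h)
        (fun i i' h1 h2 => eq_of_div_mod h1 h2)
        A A' hcA hcA' himg _ _ (row_lt a (hlA a ha)) (row_lt a' (hlA' a' ha'))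
        (fun i hi => le_antisymm (hc a ha i hi) (hc i hi a ha))
        (fun i hi => le_antisymm (hc' a' ha' i hi) (hc' i hi a' ha'))

end seq

end Pool.Agent.WLIter.Low
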