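import Pool.Agent.WLIter.RelLength

/-! The relative length theorem. -/

open Matrix

namespace Pool.Agent.WLIter

variable {A R : Type*} [Ring A] [Algebra ℂ A] [Ring R] [Algebra ℂ R] [FiniteDimensional ℂ R]
variable (ι : A →ₐ[ℂ] R) (dA : BlockData A) (dR : BlockData R)

/-- projection to block `j` -/
noncomputable def blk (j : Fin dR.s) : R →ₐ[ℂ] Matrix (Fin (dR.a j)) (Fin (dR.a j)) ℂ :=
  (Pi.evalAlgHom ℂ (fun j => Matrix (Fin (dR.a j)) (Fin (dR.a j)) ℂ) j).comp dR.e.toAlgHom

omit [FiniteDimensional ℂ R] in
theorem blk_apply (j : Fin dR.s) (x : R) : blk dR j x = dR.e x j := rfl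

/-- the multiplicities -/
noncomputable def rho (i : Fin dA.s) (j : Fin dR.s) : ℕ := (blk dR j (ι (dA.pr i))).rank

theorem eq_zero_of_rank {n : Type*} [Fintype n] [DecidableEq n] (p : Matrix n n ℂ)
    (h : p.rank = 0) : p = 0 := by
  unfold Matrix.rank at h
  rw [Submodule.finrank_eq_zero, LinearMap.range_eq_bot] at h
  ext i j
  have := congrFun (congrArg (fun f => f (Pi.single j 1)) h) i
  simpa using this

/-- dimension of the corner of the big algebra -/
theorem finrank_corner_le :
    Module.finrank ℂ (LinearMap.range (corner (ι dA.ee))) ≤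
      ∑ j, (∑ i, rho ι dA dR i j) ^ 2 := by
  have hr : ∀ j, ∑ i, rho ι dA dR i j = (blk dR j (ι dA.ee)).rank := fun j =>
    (rank_ee dA ((blk dR j).comp ι)).symm
  simp_rw [hr]
  set e := ι dA.ee with he
  have hidem : IsIdempotentElem e := dA.ee_idem.map ι
  -- map the corner into the product of the corners
  let f : LinearMap.range (corner e) →ₗ[ℂ] (Π j, LinearMap.range (corner (blk dR j e))) :=
    LinearMap.pi (fun j => ((blk dR j).toLinearMap.restrict (p := LinearMap.range (corner e))
      (q := LinearMap.range (corner (blk dR j e))) (by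
        rintro _ ⟨y, rfl⟩
        refine ⟨blk dR j y, ?_⟩
        simp only [corner_apply, AlgHom.toLinearMap_apply, map_mul])))
  have hf : ∀ x j, ((f x j : LinearMap.range (corner (blk dR j e))) :
      Matrix (Fin (dR.a j)) (Fin (dR.a j)) ℂ) = blk dR j x := fun x j => rfl
  have hinj : Function.Injective f := by
    refine (injective_iff_map_eq_zero _).2 ?_
    intro x hx
    ext1
    simp only [ZeroMemClass.coe_zero]
    apply dR.e.injective
    rw [map_zero]
    funext j
    have := congrArg (fun g => ((g j : LinearMap.range (corner (blk dR j e))) :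
      Matrix (Fin (dR.a j)) (Fin (dR.a j)) ℂ)) hx
    have h5 : blk dR j (x : R) = 0 := by simpa [hf] using this
    exact h5
  refine (LinearMap.finrank_le_finrank_of_injective hinj).trans ?_
  rw [Module.finrank_pi_fintype]
  apply Finset.sum_le_sum
  intro j _
  exact finrank_range_corner_le _ (hidem.map _)

/-- the corner of the small algebra has dimension at least the number of blocks -/
theorem le_finrank_corner (hι : Function.Injective ι) :
    dA.s ≤ Module.finrank ℂ ((rg ι).map (corner (ι dA.ee))) := by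
  have hli : LinearIndependent ℂ (fun i : Fin dA.s => ι (dA.pr i)) := by
    rw [Fintype.linearIndependent_iff]
    intro g hg i
    have h1 : ι (dA.pr i) * ∑ i', g i' • ι (dA.pr i') = g i • ι (dA.pr i) := by
      rw [Finset.mul_sum, Finset.sum_eq_single i]
      · rw [mul_smul_comm, ← map_mul, (dA.pr_idem i).eq]
      · intro b _ hb
        rw [mul_smul_comm, ← map_mul, dA.pr_mul_ne i b (Ne.symm hb), map_zero, smul_zero]
      · simp
    rw [hg, mul_zero] at h1
    rcases smul_eq_zero.1 h1.symm with h | h
    · exact h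
    · exact absurd (hι (h.trans (map_zero ι).symm)) (dA.unit_ne_zero i 0 0)
  have hmem : ∀ i, ι (dA.pr i) ∈ (rg ι).map (corner (ι dA.ee)) := by
    intro i
    refine ⟨ι (dA.pr i), mem_rg ι _, ?_⟩
    rw [corner_apply, ← map_mul, ← map_mul]
    congr 1
    have h1 : dA.pr i * dA.ee = dA.pr i := dA.unit_mul_ee i 0
    have h2 : dA.ee * dA.pr i = dA.pr i := by
      unfold BlockData.ee
      rw [Finset.sum_mul, Finset.sum_eq_single i]
      · exact dA.pr_idem i
      · intro b _ hb
        exact dA.pr_mul_ne b i hb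
      · simp
    rw [h1, h2]
  have hli' : LinearIndependent ℂ
      (fun i : Fin dA.s => (⟨ι (dA.pr i), hmem i⟩ : (rg ι).map (corner (ι dA.ee)))) :=
    LinearIndependent.of_comp ((rg ι).map (corner (ι dA.ee))).subtype hli
  have := hli'.fintype_card_le_finrank
  simpa using this

theorem rel_length (hι : Function.Injective ι) (V : Submodule ℂ R) (hV : rg ι ≤ V)
    (hne : ¬ V ≤ rg ι) (hgen : Algebra.adjoin ℂ (V : Set R) = ⊤) :
    ∃ x y : ℕ, 2 * ∑ j, dR.a j + dA.s = 2 * ∑ i, dA.a i + dR.s + (x + y) ∧ 1 ≤ x + y ∧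
      V ^ (2 * (x + y ^ 2 + y) + 1) = ⊤ := by
  obtain ⟨x, y, h1, h2⟩ := numeric dA.a dR.a (rho ι dA dR)
    (fun i => Nat.one_le_iff_ne_zero.2 (NeZero.ne _))
    (fun j => by
      have := sum_rank dA ((blk dR j).comp ι)
      rw [Fintype.card_fin] at this
      exact this)
    (fun i => by
      by_contra hcon
      have h0 : ∑ j, rho ι dA dR i j = 0 := by omega
      rw [Finset.sum_eq_zero_iff] at h0
      apply dA.unit_ne_zero i 0 0
      apply hι
      rw [map_zero]
      apply dR.e.injective
      rw [map_zero]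
      funext j
      have h3 := h0 j (Finset.mem_univ _)
      unfold rho at h3
      exact eq_zero_of_rank _ h3)
    (fun j => by
      by_contra hcon
      have h0 : ∑ i, rho ι dA dR i j = 0 := by omega
      rw [Finset.sum_eq_zero_iff] at h0
      have h3 := sum_rank dA ((blk dR j).comp ι)
      rw [Fintype.card_fin, Finset.sum_eq_zero] at h3
      · exact NeZero.ne (dR.a j) h3.symm
      · intro i _
        have := h0 i (Finset.mem_univ _)
        unfold rho at this
        rw [AlgHom.comp_apply, this, mul_zero])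
  have hdim : Module.finrank ℂ (LinearMap.range (corner (ι dA.ee))) ≤
      dA.s + (x + y ^ 2 + y) := (finrank_corner_le ι dA dR).trans h2
  set D := x + y ^ 2 + y with hD
  set c := corner (ι dA.ee) with hc
  have hstrict : ∀ P Q : Submodule ℂ R, P ≤ Q → rg ι * P * rg ι ≤ P → rg ι * Q * rg ι ≤ Q →
      ¬ Q ≤ P → Module.finrank ℂ (P.map c) + 1 ≤ Module.finrank ℂ (Q.map c) := by
    intro P Q hPQ hP hQ hn
    have h3 : P.map c ≤ Q.map c := Submodule.map_mono hPQ
    have h4 : P.map c < Q.map c := lt_of_le_of_ne h3 (fun h => hn (key ι dA P Q hP hQ h.ge))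
    exact Submodule.finrank_lt_finrank_of_lt h4
  have hbase : dA.s + 1 ≤ Module.finrank ℂ ((bim ι V ^ 1).map c) := by
    have h3 := le_finrank_corner ι dA hι
    have h4 := hstrict (rg ι) (bim ι V ^ 1) ?_ ?_ ?_ ?_
    · exact (Nat.add_le_add_right h3 1).trans h4
    · rw [pow_one]; exact hV.trans (le_bim ι V)
    · rw [rg_mul_rg, rg_mul_rg]
    · exact (bim_pow_bim ι V 0).le
    · rw [pow_one]; exact fun h => hne ((le_bim ι V).trans h)
  have hclaim : ∀ K, bim ι V ^ (K + 1) = ⊤ ∨
      dA.s + 1 + (K + 1) ≤ Module.finrank ℂ ((bim ι V ^ (K + 2)).map c) := by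
    intro K
    by_cases htop : bim ι V ^ (K + 1) = ⊤
    · exact Or.inl htop
    right
    have hnot : ∀ j ≤ K, ¬ bim ι V ^ (j + 2) ≤ bim ι V ^ (j + 1) := by
      intro j hj h
      apply htop
      have h3 := eq_top_of_stable ι V hV hgen j h
      rw [eq_top_iff, ← h3]
      exact bim_pow_mono ι V hV (by omega)
    have h5 : ∀ j ≤ K + 1, dA.s + 1 + j ≤ Module.finrank ℂ ((bim ι V ^ (j + 1)).map c) := by
      intro j
      induction j with
      | zero => intro _; simpa using hbase
      | succ j ih =>
        intro hj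
        have h6 := ih (by omega)
        have h7 := hstrict (bim ι V ^ (j + 1)) (bim ι V ^ (j + 2))
          (bim_pow_mono ι V hV (by omega)) (bim_pow_bim ι V j).le (bim_pow_bim ι V (j + 1)).le
          (hnot j (by omega))
        have : j + 1 + 1 = j + 2 := by omega
        rw [this]
        omega
    exact h5 (K + 1) le_rfl
  have hDpos : 1 ≤ D := by
    have h3 : Module.finrank ℂ ((bim ι V ^ 1).map c) ≤ Module.finrank ℂ (LinearMap.range c) :=
      Submodule.finrank_mono LinearMap.map_le_range
    omega
  refine ⟨x, y, h1, ?_, ?_⟩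
  · by_contra hcon
    have hx : x = 0 := by omega
    have hy : y = 0 := by omega
    rw [hD, hx, hy] at hDpos
    simp at hDpos
  · obtain ⟨D', hD'⟩ : ∃ D', D = D' + 1 := ⟨D - 1, by omega⟩
    have htop : bim ι V ^ (D' + 1) = ⊤ := by
      rcases hclaim D' with h | h
      · exact h
      · exfalso
        have h3 : Module.finrank ℂ ((bim ι V ^ (D' + 2)).map c) ≤
            Module.finrank ℂ (LinearMap.range c) := Submodule.finrank_mono LinearMap.map_le_range
        omega
    have h8 : x + y ^ 2 + y = D' + 1 := hD'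
    rw [h8, eq_top_iff, ← htop]
    exact bim_pow_le' ι V hV D'

end Pool.Agent.WLIter
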