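import Pool.Agent.WLIter.Blocks

/-! The relative length of a semisimple algebra over a semisimple subalgebra. -/

open Matrix

namespace Pool.Agent.WLIter

/-! ### The numerical inequality -/

theorem sum_sq_le_sq_sum {t : ℕ} (c : Fin t → ℕ) : ∑ j, c j ^ 2 ≤ (∑ j, c j) ^ 2 := by
  rw [sq, Finset.sum_mul]
  apply Finset.sum_le_sum
  intro j _
  rw [sq]
  exact Nat.mul_le_mul_left _ (Finset.single_le_sum (fun i _ => Nat.zero_le (c i))
    (Finset.mem_univ j))

theorem numeric {s t : ℕ} (a : Fin s → ℕ) (b : Fin t → ℕ) (ρ : Fin s → Fin t → ℕ)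
    (ha : ∀ i, 1 ≤ a i) (h1 : ∀ j, ∑ i, a i * ρ i j = b j) (h2 : ∀ i, 1 ≤ ∑ j, ρ i j)
    (h3 : ∀ j, 1 ≤ ∑ i, ρ i j) :
    ∃ x y : ℕ, 2 * ∑ j, b j + s = 2 * ∑ i, a i + t + (x + y) ∧
      ∑ j, (∑ i, ρ i j) ^ 2 ≤ s + (x + y ^ 2 + y) := by
  -- f i = 1 + g i
  obtain ⟨g, hg⟩ : ∃ g : Fin s → ℕ, ∀ i, ∑ j, ρ i j = 1 + g i :=
    ⟨fun i => ∑ j, ρ i j - 1, fun i => (Nat.add_sub_cancel' (h2 i)).symm⟩
  obtain ⟨c, hc⟩ : ∃ c : Fin t → ℕ, ∀ j, ∑ i, ρ i j = 1 + c j :=
    ⟨fun j => ∑ i, ρ i j - 1, fun j => (Nat.add_sub_cancel' (h3 j)).symm⟩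
  have hb : ∑ j, b j = ∑ i, a i + ∑ i, a i * g i := by
    calc ∑ j, b j = ∑ j, ∑ i, a i * ρ i j := by simp_rw [h1]
      _ = ∑ i, ∑ j, a i * ρ i j := Finset.sum_comm
      _ = ∑ i, a i * (1 + g i) := by
          apply Finset.sum_congr rfl
          intro i _
          rw [← Finset.mul_sum, hg]
      _ = _ := by
          rw [← Finset.sum_add_distrib]
          apply Finset.sum_congr rfl
          intro i _
          ring
  have hN : t + ∑ j, c j = s + ∑ i, g i := by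
    have e1 : ∑ j, ∑ i, ρ i j = t + ∑ j, c j := by
      simp_rw [hc, Finset.sum_add_distrib]
      simp
    have e2 : ∑ i, ∑ j, ρ i j = s + ∑ i, g i := by
      simp_rw [hg, Finset.sum_add_distrib]
      simp
    rw [← e1, ← e2, Finset.sum_comm]
  have hx : ∑ i, g i ≤ ∑ i, a i * g i := by
    apply Finset.sum_le_sum
    intro i _
    nlinarith [ha i]
  set x := ∑ i, a i * g i with hxd
  set z := ∑ j, c j with hz
  set G := ∑ i, g i with hG
  have hsq : ∑ j, (∑ i, ρ i j) ^ 2 ≤ z ^ 2 + 2 * z + t := by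
    calc ∑ j, (∑ i, ρ i j) ^ 2 = ∑ j, (c j ^ 2 + 2 * c j + 1) := by
          apply Finset.sum_congr rfl
          intro j _
          rw [hc]; ring
      _ = ∑ j, c j ^ 2 + 2 * z + t := by
          rw [Finset.sum_add_distrib, Finset.sum_add_distrib, ← Finset.mul_sum]
          simp [hz]
      _ ≤ _ := by
          have := sum_sq_le_sq_sum c
          rw [← hz] at this
          omega
  refine ⟨x, x + s - t, ?_, ?_⟩
  · rw [hb]; omega
  · have hy : z ≤ x + s - t := by omega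
    obtain ⟨y, hy'⟩ : ∃ y, x + s - t = y := ⟨_, rfl⟩
    rw [hy']
    rw [hy'] at hy
    have ht : t + y = x + s := by omega
    have h5 : z ^ 2 ≤ y ^ 2 := Nat.pow_le_pow_left hy 2
    omega

/-! ### Ranks -/

section ranks

variable {A : Type*} [Ring A] [Algebra ℂ A] (d : BlockData A)
variable {n : Type*} [Fintype n] [DecidableEq n] (φ : A →ₐ[ℂ] Matrix n n ℂ)

theorem trace_unit (i : Fin d.s) (k : Fin (d.a i)) :
    (φ (d.unit i k k)).trace = ((φ (d.pr i)).rank : ℂ) := by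
  rw [← trace_eq_rank _ ((d.pr_idem i).map φ)]
  rw [← d.unit_mul i k 0 k, map_mul, Matrix.trace_mul_comm, ← map_mul, d.unit_mul]
  rfl

theorem sum_rank : ∑ i, d.a i * (φ (d.pr i)).rank = Fintype.card n := by
  have h : ((φ 1).trace : ℂ) = ∑ i, (d.a i : ℂ) * ((φ (d.pr i)).rank : ℂ) := by
    rw [← d.sum_unit, map_sum, Matrix.trace_sum]
    apply Finset.sum_congr rfl
    intro i _
    rw [map_sum, Matrix.trace_sum]
    simp_rw [trace_unit]
    simp
  rw [map_one, Matrix.trace_one] at h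
  exact_mod_cast h.symm

theorem rank_ee : (φ d.ee).rank = ∑ i, (φ (d.pr i)).rank := by
  have h : ((φ d.ee).trace : ℂ) = ∑ i, ((φ (d.pr i)).rank : ℂ) := by
    unfold BlockData.ee
    rw [map_sum, Matrix.trace_sum]
    apply Finset.sum_congr rfl
    intro i _
    exact trace_eq_rank _ ((d.pr_idem i).map φ)
  rw [trace_eq_rank _ (d.ee_idem.map φ)] at h
  exact_mod_cast h

end ranks

/-! ### The chain of bimodules -/

section chain

variable {A R : Type*} [Ring A] [Algebra ℂ A] [Ring R] [Algebra ℂ R]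
variable (ι : A →ₐ[ℂ] R) (dA : BlockData A)

/-- range of `ι` as a submodule -/
noncomputable def rg : Submodule ℂ R := Subalgebra.toSubmodule ι.range

theorem one_mem_rg : (1 : R) ∈ rg ι := ι.range.one_mem

theorem mem_rg (x : A) : ι x ∈ rg ι := ⟨x, rfl⟩

theorem rg_mul_rg : rg ι * rg ι = rg ι := ι.range.isIdempotentElem_toSubmodule

theorem key (P Q : Submodule ℂ R) (hP : rg ι * P * rg ι ≤ P) (hQ : rg ι * Q * rg ι ≤ Q)
    (h : Q.map (corner (ι dA.ee)) ≤ P.map (corner (ι dA.ee))) : Q ≤ P := by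
  have tri : ∀ (S : Submodule ℂ R), rg ι * S * rg ι ≤ S → ∀ u v : A, ∀ x ∈ S,
      ι u * x * ι v ∈ S := fun S hS u v x hx =>
    hS (Submodule.mul_mem_mul (Submodule.mul_mem_mul (mem_rg ι u) hx) (mem_rg ι v))
  have hcP : ∀ y ∈ Q, ι dA.ee * (y * ι dA.ee) ∈ P := by
    intro y hy
    obtain ⟨z, hz, hz'⟩ := h (Submodule.mem_map_of_mem (f := corner (ι dA.ee)) hy)
    rw [corner_apply, corner_apply] at hz'
    rw [← hz', ← mul_assoc]
    exact tri P hP _ _ z hz
  intro x hx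
  have e1 : x = ι 1 * x * ι 1 := by rw [map_one, one_mul, mul_one]
  rw [e1, dA.one_eq, map_sum, Finset.sum_mul, Finset.sum_mul]
  apply Submodule.sum_mem
  intro i _
  rw [map_sum, Finset.sum_mul, Finset.sum_mul]
  apply Submodule.sum_mem
  intro k _
  rw [Finset.mul_sum]
  apply Submodule.sum_mem
  intro i' _
  rw [map_sum, Finset.mul_sum]
  apply Submodule.sum_mem
  intro k' _
  have e2 : ι (dA.unit i k 0 * dA.ee * dA.unit i 0 k) * x *
      ι (dA.unit i' k' 0 * dA.ee * dA.unit i' 0 k') =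
      ι (dA.unit i k 0) * (ι dA.ee * ((ι (dA.unit i 0 k) * x * ι (dA.unit i' k' 0)) * ι dA.ee)) *
        ι (dA.unit i' 0 k') := by
    simp only [map_mul, mul_assoc]
  rw [e2]
  exact tri P hP _ _ _ (hcP _ (tri Q hQ _ _ x hx))

/-- the bimodule generated by `V` -/
noncomputable def bim (V : Submodule ℂ R) : Submodule ℂ R := rg ι * V * rg ι

variable (V : Submodule ℂ R)

theorem rg_mul_bim : rg ι * bim ι V = bim ι V := by
  unfold bim; rw [← mul_assoc, ← mul_assoc, rg_mul_rg]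

theorem bim_mul_rg : bim ι V * rg ι = bim ι V := by
  unfold bim; rw [mul_assoc, rg_mul_rg]

theorem bim_pow_bim (k : ℕ) : rg ι * bim ι V ^ (k + 1) * rg ι = bim ι V ^ (k + 1) := by
  have h1 : rg ι * bim ι V ^ (k + 1) = bim ι V ^ (k + 1) := by
    rw [pow_succ', ← mul_assoc, rg_mul_bim]
  rw [h1, pow_succ, mul_assoc, bim_mul_rg]

theorem le_bim : V ≤ bim ι V := by
  intro x hx
  have := Submodule.mul_mem_mul (Submodule.mul_mem_mul (one_mem_rg ι) hx) (one_mem_rg ι)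
  rw [one_mul, mul_one] at this
  exact this

theorem one_mem_bim (hV : rg ι ≤ V) : (1 : R) ∈ bim ι V := le_bim ι V (hV (one_mem_rg ι))

theorem bim_pow_le_succ (hV : rg ι ≤ V) (k : ℕ) : bim ι V ^ k ≤ bim ι V ^ (k + 1) := by
  intro x hx
  have := Submodule.mul_mem_mul hx (one_mem_bim ι V hV)
  rw [mul_one] at this
  rw [pow_succ]
  exact this

theorem bim_pow_mono (hV : rg ι ≤ V) {k l : ℕ} (h : k ≤ l) : bim ι V ^ k ≤ bim ι V ^ l :=
  monotone_nat_of_le_succ (bim_pow_le_succ ι V hV) h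

/-- if the chain stops, it is everything -/
theorem eq_top_of_stable (hV : rg ι ≤ V) (hgen : Algebra.adjoin ℂ (V : Set R) = ⊤) (k : ℕ)
    (h : bim ι V ^ (k + 2) ≤ bim ι V ^ (k + 1)) : bim ι V ^ (k + 1) = ⊤ := by
  set U := bim ι V ^ (k + 1) with hU
  have h1 : ∀ j, U * bim ι V ^ j ≤ U := by
    intro j
    induction j with
    | zero => simp
    | succ j ih =>
      calc U * bim ι V ^ (j + 1) = U * bim ι V ^ j * bim ι V := by rw [pow_succ, mul_assoc]
        _ ≤ U * bim ι V := mul_le_mul' ih le_rfl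
        _ ≤ U := by rw [hU, ← pow_succ]; exact h
  have hVU : V ≤ U := by
    refine (le_bim ι V).trans ?_
    have := bim_pow_mono ι V hV (show 1 ≤ k + 1 by omega)
    rwa [pow_one] at this
  let S : Subalgebra ℂ R := U.toSubalgebra (hVU (hV (one_mem_rg ι)))
    (fun x y hx hy => h1 (k + 1) (Submodule.mul_mem_mul hx hy))
  have h2 : Algebra.adjoin ℂ (V : Set R) ≤ S := Algebra.adjoin_le hVU
  rw [hgen] at h2
  rw [eq_top_iff]
  intro x _
  exact h2 (Algebra.mem_top)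

theorem bim_pow_le (hV : rg ι ≤ V) (k : ℕ) :
    bim ι V ^ (k + 1) ≤ V ^ (2 * (k + 1)) * rg ι := by
  induction k with
  | zero =>
    rw [zero_add, pow_one, mul_one, sq]
    exact mul_le_mul' (mul_le_mul' hV le_rfl) le_rfl
  | succ k ih =>
    calc bim ι V ^ (k + 1 + 1) = bim ι V ^ (k + 1) * bim ι V := pow_succ _ _
      _ ≤ V ^ (2 * (k + 1)) * rg ι * bim ι V := mul_le_mul' ih le_rfl
      _ = V ^ (2 * (k + 1)) * (rg ι * V * rg ι) := by rw [mul_assoc, rg_mul_bim]; rfl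
      _ ≤ V ^ (2 * (k + 1)) * (V * V * rg ι) :=
          mul_le_mul' le_rfl (mul_le_mul' (mul_le_mul' hV le_rfl) le_rfl)
      _ = _ := by rw [show 2 * (k + 1 + 1) = 2 * (k + 1) + 2 by ring, pow_add, sq]
                  simp only [mul_assoc]

theorem bim_pow_le' (hV : rg ι ≤ V) (k : ℕ) :
    bim ι V ^ (k + 1) ≤ V ^ (2 * (k + 1) + 1) := by
  refine (bim_pow_le ι V hV k).trans ?_
  rw [pow_succ]
  exact mul_le_mul' le_rfl hV

end chain

end Pool.Agent.WLIter
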